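import Mathlib

open Set Filter Topology MeasureTheory
open scoped NNReal Real ComplexConjugate

namespace Pool.Agent.Lib52.Fou

/-- The exponential of frequency `k`. -/
noncomputable def ek (k : ℤ) (τ : ℝ) : ℂ := Complex.exp (Complex.I * k * τ)

lemma ek_add (j k : ℤ) (τ : ℝ) : ek (j + k) τ = ek j τ * ek k τ := by
  unfold ek
  rw [← Complex.exp_add]
  congr 1
  push_cast
  ring

@[simp] lemma ek_zero (τ : ℝ) : ek 0 τ = 1 := by simp [ek]

@[simp] lemma ek_at_zero (k : ℤ) : ek k 0 = 1 := by simp [ek]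

lemma conj_ek (k : ℤ) (τ : ℝ) : conj (ek k τ) = ek (-k) τ := by
  unfold ek
  rw [← Complex.exp_conj]
  congr 1
  simp

lemma ek_neg_arg (k : ℤ) (τ : ℝ) : ek k (-τ) = ek (-k) τ := by
  unfold ek
  congr 1
  push_cast
  ring

@[simp] lemma norm_ek (k : ℤ) (τ : ℝ) : ‖ek k τ‖ = 1 := by
  unfold ek
  rw [show Complex.I * k * τ = ((k * τ : ℝ) : ℂ) * Complex.I by push_cast; ring]
  exact Complex.norm_exp_ofReal_mul_I _

lemma ek_ne_zero (k : ℤ) (τ : ℝ) : ek k τ ≠ 0 := Complex.exp_ne_zero _

lemma ek_periodic (k : ℤ) (τ : ℝ) : ek k (τ + 2 * π) = ek k τ := by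
  unfold ek
  rw [show Complex.I * k * ((τ + 2 * π : ℝ) : ℂ) = Complex.I * k * τ + k * (2 * π * Complex.I) by
    push_cast; ring, Complex.exp_add, Complex.exp_int_mul_two_pi_mul_I, mul_one]

lemma ek_pi (k : ℤ) : ek k π = ek k (-π) := by
  rw [← ek_periodic k (-π)]
  congr 1
  ring

lemma ek_hasDerivAt (k : ℤ) (τ : ℝ) : HasDerivAt (ek k) (Complex.I * k * ek k τ) τ := by
  have h1 : HasDerivAt (fun t : ℝ => Complex.I * k * (t : ℂ)) (Complex.I * k) τ := by
    simpa using (Complex.ofRealCLM.hasDerivAt (x := τ)).const_mul (Complex.I * (k : ℂ))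
  have h2 := h1.cexp
  refine h2.congr_deriv ?_
  unfold ek
  ring

lemma ek_continuous (k : ℤ) : Continuous (ek k) :=
  continuous_iff_continuousAt.mpr fun τ => (ek_hasDerivAt k τ).continuousAt

lemma integral_ek (k : ℤ) :
    ∫ τ in (-π)..π, ek k τ = if k = 0 then (2 * π : ℂ) else 0 := by
  split_ifs with h
  · subst h
    simp only [ek_zero, intervalIntegral.integral_const, Complex.real_smul, mul_one]
    push_cast
    ring
  · have hne : Complex.I * (k : ℂ) ≠ 0 := by
      simp [Complex.I_ne_zero, h]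
    have h1 : ∫ τ in (-π)..π, Complex.I * k * ek k τ = ek k π - ek k (-π) := by
      apply intervalIntegral.integral_eq_sub_of_hasDerivAt (fun τ _ => ek_hasDerivAt k τ)
      apply Continuous.intervalIntegrable
      have := ek_continuous k
      fun_prop
    rw [intervalIntegral.integral_const_mul, ek_pi, sub_self] at h1
    exact (mul_eq_zero.mp h1).resolve_left hne

/-- Unnormalised Fourier coefficients on `[-π, π]`. -/
noncomputable def cf (f : ℝ → ℂ) (k : ℤ) : ℂ := ∫ τ in (-π)..π, f τ * ek (-k) τ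

lemma cf_deriv {f f' : ℝ → ℂ} (hf : ∀ τ, HasDerivAt f (f' τ) τ) (hf' : Continuous f')
    (hper : f π = f (-π)) (k : ℤ) : cf f' k = Complex.I * k * cf f k := by
  have hfc : Continuous f := continuous_iff_continuousAt.mpr fun τ => (hf τ).continuousAt
  have hec := ek_continuous (-k)
  have h1 : ∫ τ in (-π)..π, (f' τ * ek (-k) τ + f τ * (Complex.I * ((-k : ℤ) : ℂ) * ek (-k) τ)) =
      f π * ek (-k) π - f (-π) * ek (-k) (-π) := by
    apply intervalIntegral.integral_eq_sub_of_hasDerivAt
      (fun τ _ => (hf τ).mul (ek_hasDerivAt (-k) τ))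
    apply Continuous.intervalIntegrable
    fun_prop
  rw [hper, ek_pi, sub_self, intervalIntegral.integral_add
    (by apply Continuous.intervalIntegrable; fun_prop)
    (by apply Continuous.intervalIntegrable; fun_prop)] at h1
  have h2 : ∫ τ in (-π)..π, f τ * (Complex.I * ((-k : ℤ) : ℂ) * ek (-k) τ) =
      -(Complex.I * k * cf f k) := by
    unfold cf
    rw [← neg_mul, ← intervalIntegral.integral_const_mul]
    congr 1
    ext τ
    push_cast
    ring
  rw [h2] at h1
  unfold cf at h1 ⊢
  linear_combination h1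

lemma cf_add {f g : ℝ → ℂ} (hf : Continuous f) (hg : Continuous g) (k : ℤ) :
    cf (fun τ => f τ + g τ) k = cf f k + cf g k := by
  have hec := ek_continuous (-k)
  unfold cf
  rw [← intervalIntegral.integral_add
    (by apply Continuous.intervalIntegrable; fun_prop)
    (by apply Continuous.intervalIntegrable; fun_prop)]
  congr 1
  ext τ
  ring

lemma cf_const_mul (c : ℂ) (f : ℝ → ℂ) (k : ℤ) :
    cf (fun τ => c * f τ) k = c * cf f k := by
  unfold cf
  rw [← intervalIntegral.integral_const_mul]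
  congr 1
  ext τ
  ring

lemma cf_ek_mul (j : ℤ) (f : ℝ → ℂ) (k : ℤ) :
    cf (fun τ => ek j τ * f τ) k = cf f (k - j) := by
  unfold cf
  congr 1
  ext τ
  rw [show -(k - j) = j + -k by ring, ek_add]
  ring

lemma norm_cf_le {f : ℝ → ℂ} {M : ℝ} (hM : ∀ τ, ‖f τ‖ ≤ M) (k : ℤ) :
    ‖cf f k‖ ≤ M * (2 * π) := by
  unfold cf
  have h := intervalIntegral.norm_integral_le_of_norm_le_const (a := -π) (b := π)
    (f := fun τ => f τ * ek (-k) τ) (C := M) (fun τ _ => by
      rw [norm_mul, norm_ek, mul_one]; exact hM τ)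
  rw [show π - -π = 2 * π by ring, abs_of_pos (by have := Real.pi_pos; positivity)] at h
  exact h

/-- The sum of a Fourier series. -/
noncomputable def S (x : ℤ → ℂ) (τ : ℝ) : ℂ := ∑' k, x k * ek k τ

lemma S_summable {x : ℤ → ℂ} (hx : Summable fun k => ‖x k‖) (τ : ℝ) :
    Summable fun k => x k * ek k τ := by
  apply Summable.of_norm
  simpa using hx

lemma S_hasSum {x : ℤ → ℂ} (hx : Summable fun k => ‖x k‖) (τ : ℝ) :
    HasSum (fun k => x k * ek k τ) (S x τ) := (S_summable hx τ).hasSum

lemma S_continuous {x : ℤ → ℂ} (hx : Summable fun k => ‖x k‖) : Continuous (S x) := by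
  apply continuous_tsum (u := fun k => ‖x k‖) (fun k => (ek_continuous k).const_smul (x k)) hx
  intro k τ
  simp

lemma S_periodic (x : ℤ → ℂ) (τ : ℝ) : S x (τ + 2 * π) = S x τ := by
  unfold S
  congr 1
  ext k
  rw [ek_periodic]

lemma S_hasDerivAt {x : ℤ → ℂ} (hx : Summable fun k => ‖x k‖)
    (hx1 : Summable fun k : ℤ => ‖(k : ℂ) * x k‖) (τ : ℝ) :
    HasDerivAt (S x) (Complex.I * S (fun k => (k : ℂ) * x k) τ) τ := by
  have h := hasDerivAt_tsum (𝕜 := ℝ) (g := fun (k : ℤ) τ => x k * ek k τ)
    (g' := fun (k : ℤ) τ => x k * (Complex.I * k * ek k τ)) (u := fun k : ℤ => ‖(k : ℂ) * x k‖)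
    hx1 (fun k τ => (ek_hasDerivAt k τ).const_mul (x k)) (fun k τ => by
      simp only [norm_mul, norm_ek, Complex.norm_I, mul_one, one_mul]
      rw [mul_comm]) (S_summable hx 0) τ
  refine h.congr_deriv ?_
  unfold S
  rw [← tsum_mul_left]
  congr 1
  ext k
  ring

lemma integral_S_mul {x : ℤ → ℂ} (hx : Summable fun k => ‖x k‖) {g : ℝ → ℂ}
    (hg : Continuous g) :
    HasSum (fun k => x k * ∫ τ in (-π)..π, ek k τ * g τ) (∫ τ in (-π)..π, S x τ * g τ) := by
  obtain ⟨M, hM⟩ := (isCompact_uIcc (a := -π) (b := π)).exists_bound_of_continuousOn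
    hg.continuousOn
  have key := intervalIntegral.hasSum_integral_of_dominated_convergence (μ := volume)
    (a := -π) (b := π) (F := fun (k : ℤ) τ => x k * (ek k τ * g τ))
    (f := fun τ => S x τ * g τ) (fun k _ => ‖x k‖ * M)
    (fun k => by
      apply Continuous.aestronglyMeasurable
      have := ek_continuous k
      fun_prop)
    (fun k => by
      filter_upwards with τ hτ
      rw [norm_mul, norm_mul, norm_ek, one_mul]
      exact mul_le_mul_of_nonneg_left (hM τ (uIoc_subset_uIcc hτ)) (norm_nonneg _))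
    (by
      filter_upwards with τ _
      exact hx.mul_right M)
    (by simp)
    (by
      filter_upwards with τ _
      have := (S_hasSum hx τ).mul_right (g τ)
      refine this.congr_fun ?_ |> fun h => h
      intro k
      ring)
  simpa only [intervalIntegral.integral_const_mul] using key

lemma cf_S {x : ℤ → ℂ} (hx : Summable fun k => ‖x k‖) (k : ℤ) :
    cf (S x) k = 2 * π * x k := by
  have h := integral_S_mul hx (ek_continuous (-k))
  have h2 : HasSum (fun j => x j * ∫ τ in (-π)..π, ek j τ * ek (-k) τ)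
      (x k * (2 * π)) := by
    have : ∀ j, x j * ∫ τ in (-π)..π, ek j τ * ek (-k) τ =
        if j = k then x k * (2 * π) else 0 := by
      intro j
      have h3 : ∫ τ in (-π)..π, ek j τ * ek (-k) τ = ∫ τ in (-π)..π, ek (j + -k) τ := by
        congr 1
        ext τ
        rw [ek_add]
      rw [h3, integral_ek]
      by_cases hjk : j = k
      · subst hjk; simp
      · have : j + -k ≠ 0 := by omega
        simp [hjk, this]
    simp_rw [this]
    exact hasSum_ite_eq k _
  unfold cf
  rw [h.unique h2]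
  ring

/-- Completeness: a continuous periodic function with summable coefficients is the sum of its
Fourier series. -/
lemma eq_S_of_summable {f : ℝ → ℂ} (hf : Continuous f) (hper : ∀ τ, f (τ + 2 * π) = f τ)
    (hsum : Summable fun k => ‖cf f k‖) (τ : ℝ) :
    f τ = S (fun k => (1 / (2 * π) : ℂ) * cf f k) τ := by
  have hper' : Function.Periodic f (2 * π) := hper
  haveI : Fact (0 < 2 * π) := ⟨by have := Real.pi_pos; positivity⟩
  let F : C(AddCircle (2 * π), ℂ) := ⟨hper'.lift, continuous_coinduced_dom.mpr hf⟩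
  have hF : ∀ t : ℝ, F (t : AddCircle (2 * π)) = f t := fun t => rfl
  have hfou : ∀ (k : ℤ) (t : ℝ), fourier k (t : AddCircle (2 * π)) = ek k t := by
    intro k t
    rw [fourier_coe_apply]
    unfold ek
    congr 1
    have : (π : ℂ) ≠ 0 := by exact_mod_cast Real.pi_ne_zero
    push_cast
    field_simp
  have hcoef : ∀ k : ℤ, fourierCoeff F k = (1 / (2 * π) : ℂ) * cf f k := by
    intro k
    rw [fourierCoeff_eq_intervalIntegral _ _ (-π), show -π + 2 * π = π by ring]
    unfold cf
    rw [Complex.real_smul]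
    push_cast
    congr 1
    congr 1
    ext t
    rw [hfou, hF, smul_eq_mul, mul_comm]
  have hs : Summable (fourierCoeff F) := by
    have : fourierCoeff F = fun k => (1 / (2 * π) : ℂ) * cf f k := funext hcoef
    rw [this]
    exact (Summable.of_norm hsum).mul_left _
  have h := has_pointwise_sum_fourier_series_of_summable hs (τ : AddCircle (2 * π))
  rw [hF] at h
  unfold S
  rw [← h.tsum_eq]
  congr 1
  ext k
  rw [hcoef, hfou, smul_eq_mul]

end Pool.Agent.Lib52.Fou
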