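import Mathlib

open Set Filter Topology
open scoped NNReal

namespace Pool.Agent.Lib52.Josephson

/-- The right-hand side of the phase equation. -/
noncomputable def rhs (m a b τ y : ℝ) : ℝ := m + a * Real.cos τ - b * Real.sin y

/-- Global solutions of the phase equation. -/
def IsSol (m a b : ℝ) (Φ : ℝ → ℝ) : Prop := ∀ τ, HasDerivAt Φ (rhs m a b τ (Φ τ)) τ

lemma rhs_lip (m a b τ : ℝ) : LipschitzWith (Real.toNNReal |b|) (rhs m a b τ) := by
  apply LipschitzWith.of_dist_le_mul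
  intro x y
  rw [Real.coe_toNNReal _ (abs_nonneg b), Real.dist_eq, Real.dist_eq]
  have : rhs m a b τ x - rhs m a b τ y = b * (Real.sin y - Real.sin x) := by
    unfold rhs; ring
  rw [this, abs_mul, abs_sub_comm x y]
  exact mul_le_mul_of_nonneg_left (Real.abs_sin_sub_sin_le y x) (abs_nonneg b)

lemma rhs_bound (m a b τ y : ℝ) : |rhs m a b τ y| ≤ |m| + |a| + |b| := by
  unfold rhs
  have h1 : |a * Real.cos τ| ≤ |a| := by
    rw [abs_mul]
    exact mul_le_of_le_one_right (abs_nonneg a) (Real.abs_cos_le_one τ)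
  have h2 : |b * Real.sin y| ≤ |b| := by
    rw [abs_mul]
    exact mul_le_of_le_one_right (abs_nonneg b) (Real.abs_sin_le_one y)
  calc |m + a * Real.cos τ - b * Real.sin y|
      ≤ |m + a * Real.cos τ| + |b * Real.sin y| := abs_sub _ _
    _ ≤ |m| + |a * Real.cos τ| + |b * Real.sin y| := by
        have := abs_add_le m (a * Real.cos τ)
        linarith
    _ ≤ |m| + |a| + |b| := by linarith

lemma sol_unique {m a b : ℝ} {Φ Ψ : ℝ → ℝ} (hΦ : IsSol m a b Φ) (hΨ : IsSol m a b Ψ) {τ₀ : ℝ}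
    (h : Φ τ₀ = Ψ τ₀) : Φ = Ψ :=
  ODE_solution_unique_univ (v := rhs m a b) (s := fun _ => univ)
    (fun t => (rhs_lip m a b t).lipschitzOnWith) (fun t => ⟨hΦ t, trivial⟩)
    (fun t => ⟨hΨ t, trivial⟩) h

lemma exists_local (m a b y : ℝ) (n : ℕ) : ∃ Φ : ℝ → ℝ, Φ 0 = y ∧
    ∀ τ ∈ Icc (-((n : ℝ) + 1)) ((n : ℝ) + 1),
      HasDerivWithinAt Φ (rhs m a b τ (Φ τ)) (Icc (-((n : ℝ) + 1)) ((n : ℝ) + 1)) τ := by
  have h0 : (0 : ℝ) ∈ Icc (-((n : ℝ) + 1)) ((n : ℝ) + 1) := by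
    constructor <;> [skip; skip] <;> have : (0 : ℝ) ≤ n := Nat.cast_nonneg n <;> linarith
  have hpl : IsPicardLindelof (rhs m a b) (tmin := -((n : ℝ) + 1)) (tmax := (n : ℝ) + 1)
      ⟨0, h0⟩ y (Real.toNNReal ((|m| + |a| + |b|) * ((n : ℝ) + 1))) 0
      (Real.toNNReal (|m| + |a| + |b|)) (Real.toNNReal |b|) := by
    constructor
    · intro t _
      exact (rhs_lip m a b t).lipschitzOnWith
    · intro x _
      unfold rhs
      fun_prop
    · intro t _ x _
      rw [Real.norm_eq_abs, Real.coe_toNNReal _ (by positivity)]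
      exact rhs_bound m a b t x
    · rw [Real.coe_toNNReal _ (by positivity), Real.coe_toNNReal _ (by positivity)]
      simp only [sub_zero, zero_sub, neg_neg, max_self, NNReal.coe_zero, le_refl]
  obtain ⟨Φ, h1, h2⟩ := hpl.exists_eq_forall_mem_Icc_hasDerivWithinAt₀
  exact ⟨Φ, h1, h2⟩

/-- Global existence. -/
lemma exists_sol (m a b y : ℝ) : ∃ Φ : ℝ → ℝ, IsSol m a b Φ ∧ Φ 0 = y := by
  choose F hF0 hF using exists_local m a b y
  have hder : ∀ n : ℕ, ∀ τ ∈ Ioo (-((n : ℝ) + 1)) ((n : ℝ) + 1),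
      HasDerivAt (F n) (rhs m a b τ (F n τ)) τ := by
    intro n τ hτ
    exact (hF n τ (Ioo_subset_Icc_self hτ)).hasDerivAt (Icc_mem_nhds hτ.1 hτ.2)
  have hagree : ∀ n k : ℕ, n ≤ k → EqOn (F n) (F k) (Ioo (-((n : ℝ) + 1)) ((n : ℝ) + 1)) := by
    intro n k hnk
    have hnk' : (n : ℝ) ≤ k := by exact_mod_cast hnk
    have hn0 : (0 : ℝ) ≤ n := Nat.cast_nonneg n
    refine ODE_solution_unique_of_mem_Ioo (v := rhs m a b) (s := fun _ => univ) (t₀ := 0)
      (K := Real.toNNReal |b|)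
      (fun t _ => (rhs_lip m a b t).lipschitzOnWith) ⟨by linarith, by linarith⟩
      (fun t ht => ⟨hder n t ht, trivial⟩) (fun t ht => ⟨hder k t ?_, trivial⟩) ?_
    · exact ⟨by linarith [ht.1], by linarith [ht.2]⟩
    · rw [hF0, hF0]
  refine ⟨fun τ => F (⌈|τ|⌉₊) τ, ?_, ?_⟩
  · intro τ
    set N : ℕ := ⌈|τ|⌉₊ + 1 with hN
    have hτN : |τ| < (N : ℝ) := by
      rw [hN]; push_cast
      have := Nat.le_ceil |τ|
      linarith
    have hEq : (fun τ => F (⌈|τ|⌉₊) τ) =ᶠ[𝓝 τ] F N := by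
      have hopen : Ioo (-(N : ℝ)) N ∈ 𝓝 τ := by
        rw [abs_lt] at hτN
        exact Ioo_mem_nhds hτN.1 hτN.2
      filter_upwards [hopen] with s hs
      have hs' : |s| < N := abs_lt.mpr hs
      have hle : ⌈|s|⌉₊ ≤ N := Nat.ceil_le.mpr hs'.le
      have hmem : s ∈ Ioo (-((⌈|s|⌉₊ : ℝ) + 1)) ((⌈|s|⌉₊ : ℝ) + 1) := by
        have := Nat.le_ceil |s|
        exact abs_lt.mp (by linarith)
      exact hagree _ _ hle hmem
    have h1 : F (⌈|τ|⌉₊) τ = F N τ := hEq.self_of_nhds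
    have h2 : HasDerivAt (F N) (rhs m a b τ (F N τ)) τ := by
      apply hder
      exact abs_lt.mp (by linarith)
    have h3 := h2.congr_of_eventuallyEq hEq
    simp only [h1]
    exact h3
  · simp only [abs_zero, Nat.ceil_zero]
    exact hF0 0

end Pool.Agent.Lib52.Josephson
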