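import Mathlib
import Pool.Agent.Lib52.Jos1

open Set Filter Topology MeasureTheory
open scoped NNReal Real

namespace Pool.Agent.Lib52.Josephson

/-- The solution of the phase equation with initial value `y` at time `0`. -/
noncomputable def sol (m a b y : ℝ) : ℝ → ℝ := Classical.choose (exists_sol m a b y)

lemma sol_isSol (m a b y : ℝ) : IsSol m a b (sol m a b y) :=
  (Classical.choose_spec (exists_sol m a b y)).1

lemma sol_zero (m a b y : ℝ) : sol m a b y 0 = y :=
  (Classical.choose_spec (exists_sol m a b y)).2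

lemma IsSol.continuous {m a b : ℝ} {Φ : ℝ → ℝ} (h : IsSol m a b Φ) : Continuous Φ :=
  continuous_iff_continuousAt.mpr fun τ => (h τ).continuousAt

/-- The symmetric orbits: `s = 1` or `s = -1`. -/
noncomputable def orb (m a b s : ℝ) : ℝ → ℝ := sol m a b (s * (π / 2))

lemma orb_isSol (m a b s : ℝ) : IsSol m a b (orb m a b s) := sol_isSol _ _ _ _

lemma orb_zero (m a b s : ℝ) : orb m a b s 0 = s * (π / 2) := sol_zero _ _ _ _

lemma orb_continuous (m a b s : ℝ) : Continuous (orb m a b s) := (orb_isSol m a b s).continuous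

/-- The displacement over half a period. -/
noncomputable def yy (m a b s : ℝ) : ℝ := orb m a b s π - s * (π / 2) - m * π

lemma sin_refl {s : ℝ} (hs : s = 1 ∨ s = -1) (x : ℝ) : Real.sin (s * π - x) = Real.sin x := by
  rcases hs with rfl | rfl
  · rw [one_mul, Real.sin_pi_sub]
  · rw [show (-1 : ℝ) * π - x = -(x + π) by ring, Real.sin_neg, Real.sin_add_pi, neg_neg]

lemma cos_refl {s : ℝ} (hs : s = 1 ∨ s = -1) (x : ℝ) : Real.cos (s * π - x) = - Real.cos x := by
  rcases hs with rfl | rfl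
  · rw [one_mul, Real.cos_pi_sub]
  · rw [show (-1 : ℝ) * π - x = -(x + π) by ring, Real.cos_neg, Real.cos_add_pi]

lemma orb_neg {m a b s : ℝ} (hs : s = 1 ∨ s = -1) (τ : ℝ) :
    orb m a b s (-τ) = s * π - orb m a b s τ := by
  have h1 : IsSol m a b (fun τ => s * π - orb m a b s (-τ)) := by
    intro τ
    have h := (orb_isSol m a b s (-τ)).comp τ (hasDerivAt_neg τ)
    have h2 := h.const_sub (s * π)
    refine h2.congr_deriv ?_
    unfold rhs
    rw [sin_refl hs, Real.cos_neg]
    ring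
  have h2 := sol_unique h1 (orb_isSol m a b s) (τ₀ := 0) (by
    simp only [neg_zero, orb_zero]; ring)
  have h3 := congrFun h2 (-τ)
  simp only [neg_neg] at h3
  linarith

lemma sol_order {m a b : ℝ} {Φ Ψ : ℝ → ℝ} (hΦ : IsSol m a b Φ) (hΨ : IsSol m a b Ψ)
    {τ₀ : ℝ} (h : Ψ τ₀ < Φ τ₀) (τ : ℝ) : Ψ τ < Φ τ := by
  by_contra hcon
  push Not at hcon
  have hc : Continuous (fun t => Φ t - Ψ t) := hΦ.continuous.sub hΨ.continuous
  obtain ⟨t, ht⟩ := mem_range_of_exists_le_of_exists_ge hc (c := 0)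
    ⟨τ, by linarith⟩ ⟨τ₀, by linarith⟩
  have h1 := sol_unique hΦ hΨ (τ₀ := t) (by simp only at ht; linarith)
  rw [h1] at h
  exact lt_irrefl _ h

lemma IsSol.add_two_pi {m a b : ℝ} {Φ : ℝ → ℝ} (hΦ : IsSol m a b Φ) (n : ℤ) :
    IsSol m a b (fun τ => Φ τ + n * (2 * π)) := by
  intro τ
  have h := (hΦ τ).add_const ((n : ℝ) * (2 * π))
  refine h.congr_deriv ?_
  unfold rhs
  rw [Real.sin_add_int_mul_two_pi]

lemma IsSol.shift {m a b : ℝ} {Φ : ℝ → ℝ} (hΦ : IsSol m a b Φ) (n : ℤ) :
    IsSol m a b (fun τ => Φ (τ + n * (2 * π))) := by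
  intro τ
  have h := (hΦ (τ + n * (2 * π))).comp τ ((hasDerivAt_id τ).add_const ((n : ℝ) * (2 * π)))
  refine h.congr_deriv ?_
  unfold rhs
  rw [Real.cos_add_int_mul_two_pi]
  ring

lemma yy_diff_lt (m a b : ℝ) : |yy m a b 1 - yy m a b (-1)| < π := by
  have h1 : orb m a b (-1) π < orb m a b 1 π := by
    apply sol_order (orb_isSol _ _ _ _) (orb_isSol _ _ _ _) (τ₀ := 0)
    rw [orb_zero, orb_zero]
    linarith [Real.pi_pos]
  have h2 : orb m a b 1 π < orb m a b (-1) π + ((1 : ℤ) : ℝ) * (2 * π) := by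
    apply sol_order ((orb_isSol _ _ _ _).add_two_pi 1) (orb_isSol _ _ _ _) (τ₀ := 0)
    rw [orb_zero, orb_zero]
    push_cast
    linarith [Real.pi_pos]
  push_cast at h2
  unfold yy
  rw [abs_lt]
  constructor <;> linarith [Real.pi_pos]

/-- Comparison of a subsolution with a solution. -/
lemma comparison {m a b : ℝ} (hb : 0 ≤ b) {φ φ' Ψ : ℝ → ℝ} {t₀ t₁ : ℝ} (h01 : t₀ ≤ t₁)
    (hφ : ∀ τ, HasDerivAt φ (φ' τ) τ) (hsub : ∀ τ, φ' τ ≤ rhs m a b τ (φ τ))
    (hΨ : IsSol m a b Ψ) (h0 : φ t₀ ≤ Ψ t₀) : φ t₁ ≤ Ψ t₁ := by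
  by_contra hcon
  push Not at hcon
  set E : ℝ → ℝ := fun t => Real.exp ((b + 1) * (t - t₀)) with hE
  have hEpos : ∀ t, 0 < E t := fun t => Real.exp_pos _
  set ε : ℝ := (φ t₁ - Ψ t₁) / (2 * E t₁) with hε
  have hεpos : 0 < ε := by
    apply div_pos (by linarith)
    have := hEpos t₁
    linarith
  have hEd : ∀ t, HasDerivAt (fun t => ε * E t) (ε * (E t * (b + 1))) t := by
    intro t
    have h1 : HasDerivAt (fun t => (b + 1) * (t - t₀)) (b + 1) t := by
      have := ((hasDerivAt_id t).sub_const t₀).const_mul (b + 1)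
      simpa using this
    exact (h1.exp).const_mul ε
  have key := image_le_of_deriv_right_lt_deriv_boundary (f := fun t => φ t - Ψ t)
    (f' := fun t => φ' t - rhs m a b t (Ψ t)) (a := t₀) (b := t₁)
    (B := fun t => ε * E t) (B' := fun t => ε * (E t * (b + 1)))
    (by
      apply Continuous.continuousOn
      exact (continuous_iff_continuousAt.mpr fun τ => (hφ τ).continuousAt).sub hΨ.continuous)
    (fun x _ => ((hφ x).sub (hΨ x)).hasDerivWithinAt)
    (by
      have := mul_pos hεpos (hEpos t₀)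
      linarith)
    hEd
    (by
      intro x _ hx
      have hpos : 0 < φ x - Ψ x := by rw [hx]; exact mul_pos hεpos (hEpos x)
      have h1 := hsub x
      have h2 : rhs m a b x (φ x) - rhs m a b x (Ψ x) = b * (Real.sin (Ψ x) - Real.sin (φ x)) := by
        unfold rhs; ring
      have h3 : Real.sin (Ψ x) - Real.sin (φ x) ≤ φ x - Ψ x := by
        calc Real.sin (Ψ x) - Real.sin (φ x) ≤ |Real.sin (Ψ x) - Real.sin (φ x)| := le_abs_self _
          _ ≤ |Ψ x - φ x| := Real.abs_sin_sub_sin_le _ _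
          _ = φ x - Ψ x := by rw [abs_sub_comm, abs_of_pos hpos]
      have h4 : b * (Real.sin (Ψ x) - Real.sin (φ x)) ≤ b * (φ x - Ψ x) :=
        mul_le_mul_of_nonneg_left h3 hb
      have h5 : ε * (E x * (b + 1)) = b * (φ x - Ψ x) + (φ x - Ψ x) := by rw [hx]; ring
      rw [h5]
      linarith)
    (x := t₁) (right_mem_Icc.mpr h01)
  have h6 : ε * E t₁ = (φ t₁ - Ψ t₁) / 2 := by
    rw [hε]
    have := (hEpos t₁).ne'
    field_simp
  rw [h6] at key
  linarith

/-- Continuous dependence on parameters. -/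
lemma orb_close (m a b a' b' s τ : ℝ) (hτ : 0 ≤ τ) :
    |orb m a b s τ - orb m a' b' s τ| ≤
      (|a - a'| + |b - b'|) * Real.exp ((|b| + 1) * τ) := by
  set h : ℝ := |a - a'| + |b - b'| with hh
  have hh0 : 0 ≤ h := by positivity
  have hK : (0 : ℝ) ≤ |b| + 1 := by positivity
  have hlip : ∀ t, LipschitzWith (Real.toNNReal (|b| + 1)) (rhs m a b t) := by
    intro t
    apply (rhs_lip m a b t).weaken
    apply Real.toNNReal_le_toNNReal
    linarith
  have key := dist_le_of_approx_trajectories_ODE (v := rhs m a b) (K := Real.toNNReal (|b| + 1))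
    (f := orb m a b s) (g := orb m a' b' s) (f' := fun t => rhs m a b t (orb m a b s t))
    (g' := fun t => rhs m a' b' t (orb m a' b' s t)) (a := 0) (b := τ) (εf := 0) (εg := h)
    (δ := 0) hlip (orb_continuous _ _ _ _).continuousOn
    (fun t _ => (orb_isSol m a b s t).hasDerivWithinAt)
    (fun t _ => by simp) (orb_continuous _ _ _ _).continuousOn
    (fun t _ => (orb_isSol m a' b' s t).hasDerivWithinAt)
    (fun t _ => by
      rw [Real.dist_eq]
      have : rhs m a' b' t (orb m a' b' s t) - rhs m a b t (orb m a' b' s t) =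
          -((a - a') * Real.cos t) + (b - b') * Real.sin (orb m a' b' s t) := by
        unfold rhs; ring
      rw [this]
      calc |-((a - a') * Real.cos t) + (b - b') * Real.sin (orb m a' b' s t)|
          ≤ |-((a - a') * Real.cos t)| + |(b - b') * Real.sin (orb m a' b' s t)| :=
            abs_add_le _ _
        _ ≤ |a - a'| + |b - b'| := by
            rw [abs_neg, abs_mul, abs_mul]
            have h1 := mul_le_of_le_one_right (abs_nonneg (a - a')) (Real.abs_cos_le_one t)
            have h2 := mul_le_of_le_one_right (abs_nonneg (b - b'))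
              (Real.abs_sin_le_one (orb m a' b' s t))
            linarith)
    (by rw [orb_zero, orb_zero, dist_self]) τ (right_mem_Icc.mpr hτ)
  rw [Real.dist_eq, Real.coe_toNNReal _ hK] at key
  have hKne : (|b| + 1) ≠ 0 := by positivity
  rw [gronwallBound_of_K_ne_0 hKne] at key
  simp only [sub_zero, zero_mul, zero_add] at key
  refine key.trans ?_
  have hexp : 1 ≤ Real.exp ((|b| + 1) * τ) := Real.one_le_exp (by positivity)
  have h1 : h / (|b| + 1) ≤ h := by
    rw [div_le_iff₀ (by positivity)]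
    nlinarith [abs_nonneg b]
  have h2 : h / (|b| + 1) * (Real.exp ((|b| + 1) * τ) - 1) ≤
      h * (Real.exp ((|b| + 1) * τ) - 1) :=
    mul_le_mul_of_nonneg_right h1 (by linarith)
  nlinarith

end Pool.Agent.Lib52.Josephson
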