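import Mathlib
import Pool.Agent.Lib52.Jos2

open Set Filter Topology MeasureTheory
open scoped NNReal Real

namespace Pool.Agent.Lib52.Josephson

/-- The forcing phase. -/
noncomputable def theta (m a τ : ℝ) : ℝ := m * τ + a * Real.sin τ

lemma theta_hasDerivAt (m a τ : ℝ) : HasDerivAt (theta m a) (m + a * Real.cos τ) τ := by
  have h1 : HasDerivAt (fun τ : ℝ => m * τ) m τ := by
    simpa using (hasDerivAt_id τ).const_mul m
  exact h1.add ((Real.hasDerivAt_sin τ).const_mul a)

lemma theta_continuous (m a : ℝ) : Continuous (theta m a) := by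
  unfold theta; fun_prop

lemma theta_zero (m a : ℝ) : theta m a 0 = 0 := by simp [theta]

lemma theta_neg (m a τ : ℝ) : theta m a (-τ) = -theta m a τ := by
  unfold theta; rw [Real.sin_neg]; ring

lemma theta_pi (m a : ℝ) : theta m a π = m * π := by
  unfold theta; rw [Real.sin_pi]; ring

lemma sin_taylor (x y : ℝ) : |Real.sin x - Real.sin y - Real.cos y * (x - y)| ≤ (x - y) ^ 2 := by
  have h := Convex.norm_image_sub_le_of_norm_hasDerivWithin_le (𝕜 := ℝ)
    (f := fun z => Real.sin z - Real.cos y * z) (f' := fun z => Real.cos z - Real.cos y)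
    (s := uIcc y x) (x := y) (y := x) (C := |x - y|)
    (fun z _ => by
      have h1 : HasDerivAt (fun z : ℝ => Real.cos y * z) (Real.cos y) z := by
        simpa using (hasDerivAt_id z).const_mul (Real.cos y)
      exact ((Real.hasDerivAt_sin z).sub h1).hasDerivWithinAt)
    (fun z hz => by
      rw [Real.norm_eq_abs]
      refine (Real.abs_cos_sub_cos_le z y).trans ?_
      exact abs_sub_left_of_mem_uIcc hz)
    (convex_uIcc y x) left_mem_uIcc right_mem_uIcc
  rw [Real.norm_eq_abs, Real.norm_eq_abs] at h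
  have h2 : Real.sin x - Real.cos y * x - (Real.sin y - Real.cos y * y) =
      Real.sin x - Real.sin y - Real.cos y * (x - y) := by ring
  rw [h2] at h
  calc _ ≤ |x - y| * |x - y| := h
    _ = (x - y) ^ 2 := by rw [← sq, sq_abs]

/-- Primitive of the cosine of the phase. -/
noncomputable def CC (Φ : ℝ → ℝ) (τ : ℝ) : ℝ := ∫ u in (0 : ℝ)..τ, Real.cos (Φ u)

lemma CC_hasDerivAt {Φ : ℝ → ℝ} (hΦ : Continuous Φ) (τ : ℝ) :
    HasDerivAt (CC Φ) (Real.cos (Φ τ)) τ :=
  ((Real.continuous_cos.comp hΦ).integral_hasStrictDerivAt 0 τ).hasDerivAt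

lemma CC_zero (Φ : ℝ → ℝ) : CC Φ 0 = 0 := by simp [CC]

lemma CC_continuous {Φ : ℝ → ℝ} (hΦ : Continuous Φ) : Continuous (CC Φ) :=
  continuous_iff_continuousAt.mpr fun τ => (CC_hasDerivAt hΦ τ).continuousAt

/-- A zero of the displacement with positive weighted integral is crossed downwards. -/
lemma yy_neg_right {m a b₁ s : ℝ} (h0 : yy m a b₁ s = 0)
    (hI : 0 < ∫ τ in (0 : ℝ)..π, Real.exp (b₁ * CC (orb m a b₁ s) τ) *
      Real.sin (orb m a b₁ s τ)) :
    ∃ ε > 0, ∀ b, b₁ < b → b < b₁ + ε → yy m a b s < 0 := by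
  set Φ₁ := orb m a b₁ s with hΦ₁
  have hc₁ : Continuous Φ₁ := orb_continuous _ _ _ _
  set w : ℝ → ℝ := fun τ => Real.exp (b₁ * CC Φ₁ τ) with hw
  have hwc : Continuous w := by
    have := CC_continuous hc₁
    fun_prop
  have hwpos : ∀ τ, 0 < w τ := fun τ => Real.exp_pos _
  have hwd : ∀ τ, HasDerivAt w (w τ * (b₁ * Real.cos (Φ₁ τ))) τ := fun τ =>
    ((CC_hasDerivAt hc₁ τ).const_mul b₁).exp
  obtain ⟨W, hW⟩ := (isCompact_Icc (a := (0 : ℝ)) (b := π)).exists_bound_of_continuousOn
    hwc.continuousOn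
  have hW' : ∀ τ ∈ Icc (0 : ℝ) π, w τ ≤ W := fun τ hτ =>
    (le_abs_self _).trans (by simpa using hW τ hτ)
  have hWpos : 0 < W := (hwpos 0).trans_le (hW' 0 (left_mem_Icc.mpr Real.pi_pos.le))
  set I := ∫ τ in (0 : ℝ)..π, w τ * Real.sin (Φ₁ τ) with hIdef
  set M := Real.exp ((|b₁| + 1) * π) with hM
  have hMpos : 0 < M := Real.exp_pos _
  set K := π * (|b₁| * W * M ^ 2 + W * M) with hK
  have hKpos : 0 < K := by positivity
  refine ⟨I / (K + 1), by positivity, ?_⟩
  intro b hb1 hb2
  set h := b - b₁ with hh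
  have hhpos : 0 < h := by linarith
  have hhI : h * (K + 1) < I := by
    rw [← lt_div_iff₀ (by positivity)]
    linarith
  set Φ := orb m a b s with hΦ
  have hc : Continuous Φ := orb_continuous _ _ _ _
  have hδ : ∀ τ ∈ Icc (0 : ℝ) π, |Φ τ - Φ₁ τ| ≤ M * h := by
    intro τ hτ
    have h1 := orb_close m a b₁ a b s τ hτ.1
    rw [abs_sub_comm, sub_self, abs_zero, zero_add, abs_sub_comm b₁ b, abs_of_pos hhpos] at h1
    refine h1.trans ?_
    rw [mul_comm]
    apply mul_le_mul_of_nonneg_right _ hhpos.le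
    apply Real.exp_le_exp.mpr
    exact mul_le_mul_of_nonneg_left hτ.2 (by positivity)
  have hder : ∀ τ ∈ uIcc (0 : ℝ) π, HasDerivAt (fun τ => w τ * (Φ τ - Φ₁ τ))
      (-(b₁ * w τ * (Real.sin (Φ τ) - Real.sin (Φ₁ τ) - Real.cos (Φ₁ τ) * (Φ τ - Φ₁ τ)))
        - h * w τ * Real.sin (Φ τ)) τ := by
    intro τ _
    have h1 := (hwd τ).mul ((orb_isSol m a b s τ).sub (orb_isSol m a b₁ s τ))
    refine h1.congr_deriv ?_
    unfold rhs
    rw [← hΦ, ← hΦ₁, hh, Pi.sub_apply]
    ring
  have hint := intervalIntegral.integral_eq_sub_of_hasDerivAt hder (by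
    apply Continuous.intervalIntegrable
    fun_prop)
  have hle : (∫ τ in (0 : ℝ)..π,
      (-(b₁ * w τ * (Real.sin (Φ τ) - Real.sin (Φ₁ τ) - Real.cos (Φ₁ τ) * (Φ τ - Φ₁ τ)))
        - h * w τ * Real.sin (Φ τ))) ≤
      ∫ τ in (0 : ℝ)..π, ((|b₁| * W * M ^ 2 + W * M) * h ^ 2 - h * (w τ * Real.sin (Φ₁ τ))) := by
    apply intervalIntegral.integral_mono_on Real.pi_pos.le
    · apply Continuous.intervalIntegrable
      fun_prop
    · apply Continuous.intervalIntegrable
      fun_prop
    · intro τ hτ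
      have e1 := hδ τ hτ
      have e2 := sin_taylor (Φ τ) (Φ₁ τ)
      have e3 := Real.abs_sin_sub_sin_le (Φ τ) (Φ₁ τ)
      have e4 : (Φ τ - Φ₁ τ) ^ 2 ≤ (M * h) ^ 2 := by
        rw [← sq_abs (Φ τ - Φ₁ τ)]
        exact pow_le_pow_left₀ (abs_nonneg _) e1 2
      have e5 : -(b₁ * w τ * (Real.sin (Φ τ) - Real.sin (Φ₁ τ) -
          Real.cos (Φ₁ τ) * (Φ τ - Φ₁ τ))) ≤ |b₁| * W * (M * h) ^ 2 := by
        calc _ ≤ |-(b₁ * w τ * (Real.sin (Φ τ) - Real.sin (Φ₁ τ) -
              Real.cos (Φ₁ τ) * (Φ τ - Φ₁ τ)))| := le_abs_self _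
          _ = |b₁| * w τ * |(Real.sin (Φ τ) - Real.sin (Φ₁ τ) -
              Real.cos (Φ₁ τ) * (Φ τ - Φ₁ τ))| := by
              rw [abs_neg, abs_mul, abs_mul, abs_of_pos (hwpos τ)]
          _ ≤ |b₁| * W * (M * h) ^ 2 := by
              apply mul_le_mul _ (e2.trans e4) (abs_nonneg _) (by positivity)
              exact mul_le_mul_of_nonneg_left (hW' τ hτ) (abs_nonneg _)
      have e6 : -(h * w τ * (Real.sin (Φ τ) - Real.sin (Φ₁ τ))) ≤ h * W * (M * h) := by
        calc _ ≤ |-(h * w τ * (Real.sin (Φ τ) - Real.sin (Φ₁ τ)))| := le_abs_self _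
          _ = h * w τ * |Real.sin (Φ τ) - Real.sin (Φ₁ τ)| := by
              rw [abs_neg, abs_mul, abs_mul, abs_of_pos (hwpos τ), abs_of_pos hhpos]
          _ ≤ h * W * (M * h) := by
              apply mul_le_mul _ (e3.trans e1) (abs_nonneg _) (by positivity)
              exact mul_le_mul_of_nonneg_left (hW' τ hτ) hhpos.le
      have e7 : (|b₁| * W * M ^ 2 + W * M) * h ^ 2 - h * (w τ * Real.sin (Φ₁ τ)) =
          |b₁| * W * (M * h) ^ 2 + h * W * (M * h) - h * (w τ * Real.sin (Φ₁ τ)) := by ring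
      have e8 : h * w τ * Real.sin (Φ τ) = h * w τ * (Real.sin (Φ τ) - Real.sin (Φ₁ τ)) +
          h * (w τ * Real.sin (Φ₁ τ)) := by ring
      rw [e7, e8]
      linarith
  rw [hint, intervalIntegral.integral_sub (by simp) (by
      apply Continuous.intervalIntegrable
      fun_prop), intervalIntegral.integral_const, intervalIntegral.integral_const_mul,
      ← hIdef] at hle
  have hz : Φ 0 - Φ₁ 0 = 0 := by rw [hΦ, hΦ₁, orb_zero, orb_zero, sub_self]
  rw [hz, mul_zero, sub_zero, sub_zero, smul_eq_mul] at hle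
  have hfin : w π * (Φ π - Φ₁ π) < 0 := by
    have e1 : π * ((|b₁| * W * M ^ 2 + W * M) * h ^ 2) = K * h * h := by rw [hK]; ring
    rw [e1] at hle
    have e2 : K * h * h - h * I < 0 := by nlinarith
    linarith
  have hneg : Φ π - Φ₁ π < 0 := by
    by_contra hcon
    push Not at hcon
    have := mul_nonneg (hwpos π).le hcon
    linarith
  have : yy m a b s = yy m a b₁ s + (Φ π - Φ₁ π) := by unfold yy; ring
  rw [this, h0]
  linarith

lemma orb_b_zero (m a s : ℝ) : orb m a 0 s = fun τ => s * (π / 2) + theta m a τ := by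
  apply sol_unique (orb_isSol m a 0 s) (τ₀ := 0) (m := m) (a := a) (b := 0)
  · intro τ
    refine ((theta_hasDerivAt m a τ).const_add (s * (π / 2))).congr_deriv ?_
    unfold rhs; ring
  · rw [orb_zero, theta_zero, add_zero]

lemma yy_eq_integral (m a b s : ℝ) :
    yy m a b s = -b * ∫ τ in (0 : ℝ)..π, Real.sin (orb m a b s τ) := by
  have hder : ∀ τ ∈ uIcc (0 : ℝ) π, HasDerivAt (fun τ => orb m a b s τ - theta m a τ)
      (-b * Real.sin (orb m a b s τ)) τ := by
    intro τ _
    refine ((orb_isSol m a b s τ).sub (theta_hasDerivAt m a τ)).congr_deriv ?_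
    unfold rhs; ring
  have hc := orb_continuous m a b s
  have h := intervalIntegral.integral_eq_sub_of_hasDerivAt hder (by
    apply Continuous.intervalIntegrable
    fun_prop)
  rw [intervalIntegral.integral_const_mul, orb_zero, theta_zero, theta_pi] at h
  rw [h]
  unfold yy
  ring

lemma small_b {m a b₀ s : ℝ} (hs : s = 1 ∨ s = -1) (hb₀ : 0 < b₀)
    (hpos : ∀ b, 0 < b → b ≤ b₀ → 0 < yy m a b s) :
    s * ∫ τ in (0 : ℝ)..π, Real.cos (theta m a τ) ≤ 0 := by
  have hth := theta_continuous m a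
  have hs' : ∀ x, Real.sin (s * (π / 2) + x) = s * Real.cos x := by
    intro x
    rcases hs with rfl | rfl
    · rw [one_mul, one_mul, add_comm, Real.sin_add_pi_div_two]
    · rw [show (-1 : ℝ) * (π / 2) + x = x - π / 2 by ring, Real.sin_sub_pi_div_two]; ring
  rw [← intervalIntegral.integral_const_mul]
  by_contra hcon
  push Not at hcon
  set J := ∫ τ in (0 : ℝ)..π, s * Real.cos (theta m a τ) with hJ
  set E := Real.exp π with hE
  have hEpos : 0 < E := Real.exp_pos _
  set b := min b₀ (J / (π * E)) with hb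
  have hbpos : 0 < b := by
    apply lt_min hb₀
    have := Real.pi_pos
    positivity
  have hbJ : π * (E * b) ≤ J := by
    have h1 : b ≤ J / (π * E) := min_le_right _ _
    rw [le_div_iff₀ (by have := Real.pi_pos; positivity)] at h1
    linarith
  have h1 := hpos b hbpos (min_le_left _ _)
  rw [yy_eq_integral] at h1
  have hc := orb_continuous m a b s
  have h2 : ∫ τ in (0 : ℝ)..π, Real.sin (orb m a b s τ) < 0 := by
    by_contra hcon2
    push Not at hcon2
    have := mul_nonneg hbpos.le hcon2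
    linarith
  have h3 : (∫ τ in (0 : ℝ)..π, (s * Real.cos (theta m a τ) - E * b)) ≤
      ∫ τ in (0 : ℝ)..π, Real.sin (orb m a b s τ) := by
    apply intervalIntegral.integral_mono_on Real.pi_pos.le
    · apply Continuous.intervalIntegrable
      fun_prop
    · apply Continuous.intervalIntegrable
      fun_prop
    · intro τ hτ
      have e1 := orb_close m a 0 a b s τ hτ.1
      rw [sub_self, abs_zero, zero_add, zero_sub, abs_neg, abs_of_pos hbpos, zero_add, one_mul,
        orb_b_zero] at e1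
      have e2 := Real.abs_sin_sub_sin_le (s * (π / 2) + theta m a τ) (orb m a b s τ)
      rw [hs'] at e2
      have e3 : Real.exp τ ≤ E := Real.exp_le_exp.mpr hτ.2
      have e4 := le_abs_self (s * Real.cos (theta m a τ) - Real.sin (orb m a b s τ))
      have e5 : b * Real.exp τ ≤ E * b := by nlinarith
      linarith
  rw [intervalIntegral.integral_sub (by
      apply Continuous.intervalIntegrable
      fun_prop) (by simp), intervalIntegral.integral_const, ← hJ, smul_eq_mul, sub_zero] at h3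
  linarith

end Pool.Agent.Lib52.Josephson
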