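import Mathlib
import Pool.Agent.Lib52.Jos3

open Set Filter Topology MeasureTheory
open scoped NNReal Real ComplexConjugate

namespace Pool.Agent.Lib52.Josephson

/-- The unimodular factor `exp (-i theta)`. -/
noncomputable def uu (m a τ : ℝ) : ℂ := Complex.exp (-(Complex.I * (theta m a τ : ℂ)))

lemma uu_hasDerivAt (m a τ : ℝ) :
    HasDerivAt (uu m a) (-(Complex.I * (m + a * Real.cos τ : ℝ)) * uu m a τ) τ := by
  have h1 : HasDerivAt (fun t : ℝ => (theta m a t : ℂ)) ((m + a * Real.cos τ : ℝ) : ℂ) τ :=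
    (theta_hasDerivAt m a τ).ofReal_comp
  have h2 := ((h1.const_mul Complex.I).neg).cexp
  refine h2.congr_deriv ?_
  unfold uu
  simp only [Pi.neg_apply]
  ring

lemma uu_continuous (m a : ℝ) : Continuous (uu m a) :=
  continuous_iff_continuousAt.mpr fun τ => (uu_hasDerivAt m a τ).continuousAt

lemma norm_uu (m a τ : ℝ) : ‖uu m a τ‖ = 1 := by
  unfold uu
  rw [show -(Complex.I * (theta m a τ : ℂ)) = ((-theta m a τ : ℝ) : ℂ) * Complex.I by
    push_cast; ring]
  exact Complex.norm_exp_ofReal_mul_I _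

lemma uu_mul_conj (m a τ : ℝ) : uu m a τ * conj (uu m a τ) = 1 := by
  rw [Complex.mul_conj, Complex.normSq_eq_norm_sq, norm_uu]
  norm_num

lemma uu_zero (m a : ℝ) : uu m a 0 = 1 := by
  unfold uu
  rw [theta_zero]
  simp

lemma uu_periodic (m : ℕ) (a τ : ℝ) : uu m a (τ + 2 * π) = uu m a τ := by
  unfold uu theta
  rw [Real.sin_add_two_pi]
  rw [show -(Complex.I * (((m : ℝ) * (τ + 2 * π) + a * Real.sin τ : ℝ) : ℂ)) =
    -(Complex.I * (((m : ℝ) * τ + a * Real.sin τ : ℝ) : ℂ)) +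
      ((-(m : ℤ) : ℤ) : ℂ) * (2 * π * Complex.I) by push_cast; ring,
    Complex.exp_add, Complex.exp_int_mul_two_pi_mul_I, mul_one]

/-- The first-order real-linear system. -/
def LinSol (m a k s : ℝ) (F : ℝ → ℂ) : Prop :=
  ∀ τ, HasDerivAt F (-(Complex.I * s * k * uu m a τ * conj (F τ))) τ

lemma LinSol.continuous {m a k s : ℝ} {F : ℝ → ℂ} (h : LinSol m a k s F) : Continuous F :=
  continuous_iff_continuousAt.mpr fun τ => (h τ).continuousAt

lemma linSol_unique {m a k s : ℝ} {F G : ℝ → ℂ} (hF : LinSol m a k s F)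
    (hG : LinSol m a k s G) {τ₀ : ℝ} (h : F τ₀ = G τ₀) : F = G := by
  refine ODE_solution_unique_univ (v := fun τ z => -(Complex.I * s * k * uu m a τ * conj z))
    (K := Real.toNNReal (|s| * |k|))
    (s := fun _ => univ) (fun t => ?_) (fun t => ⟨hF t, trivial⟩)
    (fun t => ⟨hG t, trivial⟩) h
  apply LipschitzWith.lipschitzOnWith
  apply LipschitzWith.of_dist_le_mul
  intro x y
  rw [Real.coe_toNNReal _ (by positivity), dist_eq_norm, dist_eq_norm]
  have : -(Complex.I * s * k * uu m a t * conj x) - -(Complex.I * s * k * uu m a t * conj y) =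
      -(Complex.I * s * k * uu m a t * conj (x - y)) := by
    rw [map_sub]; ring
  rw [this, norm_neg, norm_mul, norm_mul, norm_mul, norm_mul, norm_uu, Complex.norm_I,
    Complex.norm_real, Complex.norm_real, RCLike.norm_conj, Real.norm_eq_abs, Real.norm_eq_abs]
  apply le_of_eq
  ring

lemma LinSol.smul {m a k s : ℝ} {F : ℝ → ℂ} (hF : LinSol m a k s F) (r : ℝ) :
    LinSol m a k s (fun τ => (r : ℂ) * F τ) := by
  intro τ
  refine ((hF τ).const_mul (r : ℂ)).congr_deriv ?_
  rw [map_mul, Complex.conj_ofReal]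
  ring

lemma LinSol.shift {m : ℕ} {a k s : ℝ} {F : ℝ → ℂ} (hF : LinSol m a k s F) :
    LinSol m a k s (fun τ => F (τ + 2 * π)) := by
  intro τ
  have h := (hF (τ + 2 * π)).scomp τ ((hasDerivAt_id τ).add_const (2 * π))
  refine h.congr_deriv ?_
  rw [uu_periodic, one_smul]

/-- The angle variable. -/
noncomputable def alpha (m a b s τ : ℝ) : ℝ :=
  (orb m a b s τ - theta m a τ - s * (π / 2)) / 2

/-- The lifted symmetric solution. -/
noncomputable def chi (m a b s τ : ℝ) : ℂ :=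
  Complex.exp (((b / 2 * CC (orb m a b s) τ : ℝ) : ℂ) + Complex.I * (alpha m a b s τ : ℂ))

lemma alpha_hasDerivAt (m a b s τ : ℝ) :
    HasDerivAt (alpha m a b s) (-(b / 2 * Real.sin (orb m a b s τ))) τ := by
  have h := (((orb_isSol m a b s τ).sub (theta_hasDerivAt m a τ)).sub_const
    (s * (π / 2))).div_const 2
  refine h.congr_deriv ?_
  unfold rhs
  ring

lemma alpha_pi (m a b s : ℝ) : alpha m a b s π = yy m a b s / 2 := by
  unfold alpha yy
  rw [theta_pi]
  ring

lemma alpha_zero (m a b s : ℝ) : alpha m a b s 0 = 0 := by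
  unfold alpha
  rw [theta_zero, orb_zero]
  ring

lemma alpha_neg {m a b s : ℝ} (hs : s = 1 ∨ s = -1) (τ : ℝ) :
    alpha m a b s (-τ) = -alpha m a b s τ := by
  unfold alpha
  rw [orb_neg hs, theta_neg]
  ring

lemma CC_neg {m a b s : ℝ} (hs : s = 1 ∨ s = -1) (τ : ℝ) :
    CC (orb m a b s) (-τ) = CC (orb m a b s) τ := by
  unfold CC
  have h1 : ∫ u in (0 : ℝ)..τ, Real.cos (orb m a b s (-u)) =
      ∫ u in (-τ)..(-0), Real.cos (orb m a b s u) :=
    intervalIntegral.integral_comp_neg (fun u => Real.cos (orb m a b s u))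
  rw [neg_zero] at h1
  have h0 := intervalIntegral.integral_symm (μ := volume)
    (f := fun u => Real.cos (orb m a b s u)) 0 (-τ)
  have h2 : ∫ u in (0 : ℝ)..τ, Real.cos (orb m a b s (-u)) =
      -∫ u in (0 : ℝ)..τ, Real.cos (orb m a b s u) := by
    rw [← intervalIntegral.integral_neg]
    congr 1
    ext u
    rw [orb_neg hs, cos_refl hs]
  linarith [h0, h1, h2]

lemma exp_c {s : ℝ} (hs : s = 1 ∨ s = -1) :
    Complex.exp (-(Complex.I * ((s * (π / 2) : ℝ) : ℂ))) = -(Complex.I * s) := by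
  rcases hs with rfl | rfl
  · rw [show -(Complex.I * ((1 * (π / 2) : ℝ) : ℂ)) = -(π / 2 * Complex.I) by push_cast; ring,
      Complex.exp_neg, Complex.exp_pi_div_two_mul_I, Complex.inv_I]
    push_cast
    ring
  · rw [show -(Complex.I * ((-1 * (π / 2) : ℝ) : ℂ)) = (π / 2 * Complex.I) by push_cast; ring,
      Complex.exp_pi_div_two_mul_I]
    push_cast
    ring

lemma conj_chi (m a b s τ : ℝ) : conj (chi m a b s τ) =
    Complex.exp (((b / 2 * CC (orb m a b s) τ : ℝ) : ℂ) - Complex.I * (alpha m a b s τ : ℂ)) := by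
  unfold chi
  rw [← Complex.exp_conj]
  congr 1
  simp only [map_add, map_mul, Complex.conj_ofReal, Complex.conj_I]
  ring

lemma chi_linSol {m a b s : ℝ} (hs : s = 1 ∨ s = -1) :
    LinSol m a (b / 2) s (chi m a b s) := by
  intro τ
  have h1 : HasDerivAt (fun t : ℝ => ((b / 2 * CC (orb m a b s) t : ℝ) : ℂ))
      ((b / 2 * Real.cos (orb m a b s τ) : ℝ) : ℂ) τ :=
    ((CC_hasDerivAt (orb_continuous m a b s) τ).const_mul (b / 2)).ofReal_comp
  have h2 : HasDerivAt (fun t : ℝ => (alpha m a b s t : ℂ))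
      ((-(b / 2 * Real.sin (orb m a b s τ)) : ℝ) : ℂ) τ :=
    (alpha_hasDerivAt m a b s τ).ofReal_comp
  have h3 := (h1.add (h2.const_mul Complex.I)).cexp
  refine h3.congr_deriv ?_
  rw [conj_chi]
  have e1 : -(Complex.I * s * ((b / 2 : ℝ) : ℂ) * uu m a τ *
      Complex.exp (((b / 2 * CC (orb m a b s) τ : ℝ) : ℂ) -
        Complex.I * (alpha m a b s τ : ℂ))) = ((b / 2 : ℝ) : ℂ) *
      (Complex.exp (-(Complex.I * ((s * (π / 2) : ℝ) : ℂ))) * uu m a τ *
      Complex.exp (((b / 2 * CC (orb m a b s) τ : ℝ) : ℂ) -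
        Complex.I * (alpha m a b s τ : ℂ))) := by
    rw [exp_c hs]; ring
  rw [e1]
  unfold uu
  rw [← Complex.exp_add, ← Complex.exp_add]
  have e2 : -(Complex.I * ((s * (π / 2) : ℝ) : ℂ)) + -(Complex.I * (theta m a τ : ℂ)) +
      (((b / 2 * CC (orb m a b s) τ : ℝ) : ℂ) - Complex.I * (alpha m a b s τ : ℂ)) =
      (((b / 2 * CC (orb m a b s) τ : ℝ) : ℂ) + Complex.I * (alpha m a b s τ : ℂ)) +
      (-(orb m a b s τ : ℂ)) * Complex.I := by
    unfold alpha
    push_cast
    ring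
  rw [e2, Complex.exp_add, Complex.exp_mul_I, Complex.cos_neg, Complex.sin_neg]
  simp only [Pi.add_apply]
  push_cast
  ring

lemma chi_zero (m a b s : ℝ) : chi m a b s 0 = 1 := by
  unfold chi
  rw [CC_zero, alpha_zero]
  simp

lemma chi_neg {m a b s : ℝ} (hs : s = 1 ∨ s = -1) (τ : ℝ) :
    chi m a b s (-τ) = conj (chi m a b s τ) := by
  rw [conj_chi]
  unfold chi
  rw [CC_neg hs, alpha_neg hs]
  congr 1
  push_cast
  ring

/-- The weight. -/
noncomputable def wt (m a b s τ : ℝ) : ℝ := Real.exp (b * CC (orb m a b s) τ)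

lemma wt_continuous (m a b s : ℝ) : Continuous (wt m a b s) := by
  have := CC_continuous (orb_continuous m a b s)
  unfold wt
  fun_prop

lemma chi_quad {m a b s : ℝ} (hs : s = 1 ∨ s = -1) (τ : ℝ) :
    uu m a τ * (conj (chi m a b s τ)) ^ 2 =
      ((wt m a b s τ : ℝ) : ℂ) * (s * Complex.I * Complex.cos (orb m a b s τ) +
        s * Complex.sin (orb m a b s τ)) := by
  have hc2 : Complex.exp (Complex.I * ((s * (π / 2) : ℝ) : ℂ)) = Complex.I * s := by
    have h1 := exp_c (s := -s) (by rcases hs with rfl | rfl <;> norm_num)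
    rw [show -(Complex.I * ((-s * (π / 2) : ℝ) : ℂ)) = Complex.I * ((s * (π / 2) : ℝ) : ℂ) by
      push_cast; ring] at h1
    rw [h1]
    push_cast
    ring
  rw [conj_chi, sq, ← Complex.exp_add]
  unfold uu wt
  rw [← Complex.exp_add]
  have e2 : -(Complex.I * (theta m a τ : ℂ)) +
      ((((b / 2 * CC (orb m a b s) τ : ℝ) : ℂ) - Complex.I * (alpha m a b s τ : ℂ)) +
      (((b / 2 * CC (orb m a b s) τ : ℝ) : ℂ) - Complex.I * (alpha m a b s τ : ℂ))) =
      ((b * CC (orb m a b s) τ : ℝ) : ℂ) + ((Complex.I * ((s * (π / 2) : ℝ) : ℂ)) +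
      (-(orb m a b s τ : ℂ)) * Complex.I) := by
    unfold alpha
    push_cast
    ring
  rw [e2, Complex.exp_add, Complex.exp_add, hc2, Complex.exp_mul_I, Complex.cos_neg,
    Complex.sin_neg, Complex.ofReal_exp]
  linear_combination (-(s : ℂ) * Complex.sin (orb m a b s τ) *
    Complex.exp ((b * CC (orb m a b s) τ : ℝ) : ℂ)) * Complex.I_mul_I

lemma chi_quad_re {m a b s : ℝ} (hs : s = 1 ∨ s = -1) (τ : ℝ) :
    (uu m a τ * (conj (chi m a b s τ)) ^ 2).re =
      s * (wt m a b s τ * Real.sin (orb m a b s τ)) := by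
  rw [chi_quad hs]
  simp only [Complex.re_ofReal_mul, Complex.add_re, mul_assoc, Complex.I_mul_re,
    Complex.cos_ofReal_im, Complex.sin_ofReal_re]
  ring

lemma chi_periodic {m : ℕ} {a b s : ℝ} (hs : s = 1 ∨ s = -1) (h0 : yy m a b s = 0) (τ : ℝ) :
    chi m a b s (τ + 2 * π) = chi m a b s τ := by
  have h1 := chi_linSol (m := m) (a := a) (b := b) hs
  have h2 := linSol_unique h1.shift h1 (τ₀ := -π) (by
    rw [show -π + 2 * π = π by ring, chi_neg hs, conj_chi]
    unfold chi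
    rw [alpha_pi, h0]
    simp)
  exact congrFun h2 τ

lemma yy_zero_of_periodic {m a b s : ℝ} (hs : s = 1 ∨ s = -1)
    (hper : chi m a b s π = chi m a b s (-π)) (hlt : |yy m a b s| < π) : yy m a b s = 0 := by
  rw [chi_neg hs, conj_chi] at hper
  unfold chi at hper
  rw [Complex.exp_add, sub_eq_add_neg, Complex.exp_add] at hper
  have h1 := mul_left_cancel₀ (Complex.exp_ne_zero _) hper
  have h2 : Real.sin (alpha m a b s π) = 0 := by
    rw [show Complex.I * (alpha m a b s π : ℂ) = (alpha m a b s π : ℂ) * Complex.I by ring,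
      Complex.exp_mul_I, show -((alpha m a b s π : ℂ) * Complex.I) =
      (-(alpha m a b s π : ℂ)) * Complex.I by ring, Complex.exp_mul_I, Complex.cos_neg,
      Complex.sin_neg] at h1
    have h3 : Complex.sin (alpha m a b s π : ℂ) * Complex.I = 0 := by
      linear_combination h1 / 2
    have h4 := (mul_eq_zero.mp h3).resolve_right Complex.I_ne_zero
    rw [← Complex.ofReal_sin] at h4
    exact_mod_cast h4
  rw [alpha_pi] at h2
  rw [abs_lt] at hlt
  have h3 := (Real.sin_eq_zero_iff_of_lt_of_lt (by linarith [Real.pi_pos])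
    (by linarith [Real.pi_pos])).mp h2
  linarith

lemma integral_even {f : ℝ → ℝ} (hf : Continuous f) (heven : ∀ τ, f (-τ) = f τ) :
    ∫ τ in (-π)..π, f τ = 2 * ∫ τ in (0 : ℝ)..π, f τ := by
  have h1 : ∫ τ in (0 : ℝ)..π, f (-τ) = ∫ τ in (-π)..(-0), f τ :=
    intervalIntegral.integral_comp_neg f
  simp_rw [heven] at h1
  rw [neg_zero] at h1
  rw [← intervalIntegral.integral_add_adjacent_intervals (b := 0)
    (hf.intervalIntegrable _ _) (hf.intervalIntegrable _ _), ← h1]
  ring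

lemma wt_sin_even {m a b s : ℝ} (hs : s = 1 ∨ s = -1) (τ : ℝ) :
    wt m a b s (-τ) * Real.sin (orb m a b s (-τ)) = wt m a b s τ * Real.sin (orb m a b s τ) := by
  unfold wt
  rw [CC_neg hs, orb_neg hs, sin_refl hs]

end Pool.Agent.Lib52.Josephson
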