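import Mathlib
import Pool.Agent.Lib52.Fou1
import Pool.Agent.Lib52.Jos4

open Set Filter Topology MeasureTheory
open scoped NNReal Real ComplexConjugate

namespace Pool.Agent.Lib52.Josephson

open Pool.Agent.Lib52.Fou

/-- The three-term recurrence for the Fourier coefficients. -/
def Rec (m : ℕ) (a β : ℝ) (X : ℤ → ℂ) : Prop :=
  ∀ k : ℤ, ((k : ℂ) + m) * ((k : ℂ) * X k) +
    (a / 2 : ℂ) * (((k - 1 : ℤ) : ℂ) * X (k - 1) + ((k + 1 : ℤ) : ℂ) * X (k + 1)) + β * X k = 0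

lemma decay_step {m : ℕ} {a β : ℝ} {X : ℤ → ℂ} (hrec : Rec m a β X) (p : ℕ)
    (h : ∃ C, ∀ k : ℤ, (1 + |(k : ℝ)|) ^ p * ‖(k : ℂ) * X k‖ ≤ C) :
    ∃ C, ∀ k : ℤ, (1 + |(k : ℝ)|) ^ (p + 1) * ‖(k : ℂ) * X k‖ ≤ C := by
  obtain ⟨C, hC⟩ := h
  have hC0 : 0 ≤ C := by
    have := hC 0
    simpa using this
  set D := C + ‖X 0‖ with hD
  have hX : ∀ k : ℤ, (1 + |(k : ℝ)|) ^ p * ‖X k‖ ≤ D := by
    intro k
    by_cases hk : k = 0
    · subst hk
      simp
      linarith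
    · have h1 : (1 : ℝ) ≤ |(k : ℝ)| := by exact_mod_cast Int.one_le_abs hk
      have h2 := hC k
      rw [norm_mul, Complex.norm_intCast] at h2
      have h3 : ‖X k‖ ≤ |(k : ℝ)| * ‖X k‖ := by nlinarith [norm_nonneg (X k)]
      have h4 : (1 + |(k : ℝ)|) ^ p * ‖X k‖ ≤ (1 + |(k : ℝ)|) ^ p * (|(k : ℝ)| * ‖X k‖) :=
        mul_le_mul_of_nonneg_left h3 (by positivity)
      have := norm_nonneg (X 0)
      linarith
  have hshift : ∀ k j : ℤ, |(k : ℝ) - j| ≤ 1 →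
      (1 + |(k : ℝ)|) ^ p * ‖(j : ℂ) * X j‖ ≤ 2 ^ p * C := by
    intro k j hkj
    have h1 : 1 + |(k : ℝ)| ≤ 2 * (1 + |(j : ℝ)|) := by
      have := abs_sub_abs_le_abs_sub (k : ℝ) j
      have := abs_nonneg (j : ℝ)
      linarith
    have h2 : (1 + |(k : ℝ)|) ^ p ≤ (2 * (1 + |(j : ℝ)|)) ^ p :=
      pow_le_pow_left₀ (by positivity) h1 p
    rw [mul_pow] at h2
    calc _ ≤ 2 ^ p * (1 + |(j : ℝ)|) ^ p * ‖(j : ℂ) * X j‖ :=
          mul_le_mul_of_nonneg_right h2 (norm_nonneg _)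
      _ = 2 ^ p * ((1 + |(j : ℝ)|) ^ p * ‖(j : ℂ) * X j‖) := by ring
      _ ≤ 2 ^ p * C := mul_le_mul_of_nonneg_left (hC j) (by positivity)
  refine ⟨(1 + m) * C + (|a| / 2 * (2 * (2 ^ p * C)) + |β| * D), ?_⟩
  intro k
  have h1 : 1 + |(k : ℝ)| ≤ (1 + m) + |(k : ℝ) + m| := by
    have h := abs_sub_abs_le_abs_sub (k : ℝ) ((k : ℝ) + m)
    have h' := abs_sub (k : ℝ) ((k : ℝ) + m)
    have e : |(k : ℝ) - ((k : ℝ) + m)| = m := by
      rw [show (k : ℝ) - ((k : ℝ) + m) = -(m : ℝ) by ring, abs_neg]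
      exact abs_of_nonneg (Nat.cast_nonneg m)
    linarith
  set P := (1 + |(k : ℝ)|) ^ p with hP
  have hPpos : 0 ≤ P := by positivity
  have h2 : ‖((k : ℂ) + m) * ((k : ℂ) * X k)‖ ≤
      |a| / 2 * (‖((k - 1 : ℤ) : ℂ) * X (k - 1)‖ + ‖((k + 1 : ℤ) : ℂ) * X (k + 1)‖) +
        |β| * ‖X k‖ := by
    have e : ((k : ℂ) + m) * ((k : ℂ) * X k) = -((a / 2 : ℂ) *
      (((k - 1 : ℤ) : ℂ) * X (k - 1) + ((k + 1 : ℤ) : ℂ) * X (k + 1)) + β * X k) := by
      linear_combination hrec k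
    rw [e, norm_neg]
    refine (norm_add_le _ _).trans ?_
    rw [norm_mul, norm_mul, Complex.norm_real, Real.norm_eq_abs]
    have e2 : ‖(a / 2 : ℂ)‖ = |a| / 2 := by
      rw [norm_div, Complex.norm_real, Real.norm_eq_abs]
      norm_num
    rw [e2]
    have := mul_le_mul_of_nonneg_left (norm_add_le (((k - 1 : ℤ) : ℂ) * X (k - 1))
      (((k + 1 : ℤ) : ℂ) * X (k + 1))) (show 0 ≤ |a| / 2 by positivity)
    linarith
  have e3 : ‖((k : ℂ) + m) * ((k : ℂ) * X k)‖ = |(k : ℝ) + m| * ‖(k : ℂ) * X k‖ := by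
    rw [norm_mul]
    congr 1
    rw [show ((k : ℂ) + m) = (((k : ℝ) + m : ℝ) : ℂ) by push_cast; ring, Complex.norm_real,
      Real.norm_eq_abs]
  rw [e3] at h2
  have s1 := hshift k (k - 1) (by push_cast; simp)
  have s2 := hshift k (k + 1) (by push_cast; simp)
  have s3 := hX k
  have s4 := hC k
  calc (1 + |(k : ℝ)|) ^ (p + 1) * ‖(k : ℂ) * X k‖
      = (1 + |(k : ℝ)|) * (P * ‖(k : ℂ) * X k‖) := by rw [hP]; ring
    _ ≤ ((1 + m) + |(k : ℝ) + m|) * (P * ‖(k : ℂ) * X k‖) :=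
        mul_le_mul_of_nonneg_right h1 (by positivity)
    _ = (1 + m) * (P * ‖(k : ℂ) * X k‖) + P * (|(k : ℝ) + m| * ‖(k : ℂ) * X k‖) := by ring
    _ ≤ (1 + m) * C + P * (|a| / 2 * (‖((k - 1 : ℤ) : ℂ) * X (k - 1)‖ +
        ‖((k + 1 : ℤ) : ℂ) * X (k + 1)‖) + |β| * ‖X k‖) := by
        apply add_le_add
        · exact mul_le_mul_of_nonneg_left s4 (by positivity)
        · exact mul_le_mul_of_nonneg_left h2 hPpos
    _ = (1 + m) * C + (|a| / 2 * (P * ‖((k - 1 : ℤ) : ℂ) * X (k - 1)‖ +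
        P * ‖((k + 1 : ℤ) : ℂ) * X (k + 1)‖) + |β| * (P * ‖X k‖)) := by ring
    _ ≤ (1 + m) * C + (|a| / 2 * (2 * (2 ^ p * C)) + |β| * D) := by
        have t1 : |a| / 2 * (P * ‖((k - 1 : ℤ) : ℂ) * X (k - 1)‖ +
          P * ‖((k + 1 : ℤ) : ℂ) * X (k + 1)‖) ≤ |a| / 2 * (2 * (2 ^ p * C)) := by
          apply mul_le_mul_of_nonneg_left _ (by positivity)
          linarith
        have t2 : |β| * (P * ‖X k‖) ≤ |β| * D := mul_le_mul_of_nonneg_left s3 (abs_nonneg _)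
        linarith

lemma summable_of_rec {m : ℕ} {a β : ℝ} {X : ℤ → ℂ} (hrec : Rec m a β X)
    (h : ∃ C, ∀ k : ℤ, ‖(k : ℂ) * X k‖ ≤ C) :
    (Summable fun k : ℤ => ‖X k‖) ∧ (Summable fun k : ℤ => ‖(k : ℂ) * X k‖) ∧
      (Summable fun k : ℤ => ‖(k : ℂ) * ((k : ℂ) * X k)‖) := by
  have h0 : ∃ C, ∀ k : ℤ, (1 + |(k : ℝ)|) ^ 0 * ‖(k : ℂ) * X k‖ ≤ C := by
    simpa using h
  obtain ⟨C, hC⟩ := decay_step hrec 2 (decay_step hrec 1 (decay_step hrec 0 h0))
  have hC0 : 0 ≤ C := by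
    have := hC 0
    simpa using this
  have hs : Summable fun k : ℤ => C * (1 / (k : ℝ) ^ 2) :=
    (Real.summable_one_div_int_pow.mpr (by norm_num)).mul_left C
  have h2 : Summable fun k : ℤ => ‖(k : ℂ) * ((k : ℂ) * X k)‖ := by
    apply Summable.of_nonneg_of_le (fun k => norm_nonneg _) _ hs
    intro k
    by_cases hk : k = 0
    · subst hk; simp
    · have hk1 : (1 : ℝ) ≤ |(k : ℝ)| := by exact_mod_cast Int.one_le_abs hk
      rw [norm_mul, Complex.norm_intCast, mul_one_div, le_div_iff₀ (by positivity), ← sq_abs]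
      calc |(k : ℝ)| * ‖(k : ℂ) * X k‖ * |(k : ℝ)| ^ 2
          = |(k : ℝ)| ^ 3 * ‖(k : ℂ) * X k‖ := by ring
        _ ≤ (1 + |(k : ℝ)|) ^ (2 + 1) * ‖(k : ℂ) * X k‖ := by
            apply mul_le_mul_of_nonneg_right _ (norm_nonneg _)
            exact pow_le_pow_left₀ (abs_nonneg _) (by linarith) 3
        _ ≤ C := hC k
  have h1 : Summable fun k : ℤ => ‖(k : ℂ) * X k‖ := by
    apply Summable.of_nonneg_of_le (fun k => norm_nonneg _) _ h2
    intro k
    by_cases hk : k = 0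
    · subst hk; simp
    · have hk1 : (1 : ℝ) ≤ |(k : ℝ)| := by exact_mod_cast Int.one_le_abs hk
      rw [norm_mul (k : ℂ) ((k : ℂ) * X k), Complex.norm_intCast]
      nlinarith [norm_nonneg ((k : ℂ) * X k)]
  refine ⟨?_, h1, h2⟩
  have h3 : Summable fun k : ℤ => ‖(k : ℂ) * X k‖ + (if k = 0 then ‖X 0‖ else 0) := by
    apply h1.add
    exact (hasSum_ite_eq 0 ‖X 0‖).summable
  apply Summable.of_nonneg_of_le (fun k => norm_nonneg _) _ h3
  intro k
  by_cases hk : k = 0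
  · subst hk; simp
  · have hk1 : (1 : ℝ) ≤ |(k : ℝ)| := by exact_mod_cast Int.one_le_abs hk
    rw [norm_mul, Complex.norm_intCast]
    simp only [hk, if_false, add_zero]
    nlinarith [norm_nonneg (X k)]

lemma S_shift_hasSum {x : ℤ → ℂ} (hx : Summable fun k => ‖x k‖) (j : ℤ) (τ : ℝ) :
    HasSum (fun k => x (k - j) * ek k τ) (ek j τ * S x τ) := by
  have h1 := (S_hasSum hx τ).mul_left (ek j τ)
  have h2 := (Equiv.subRight j).hasSum_iff.mpr h1
  have h3 : ((fun k => ek j τ * (x k * ek k τ)) ∘ (Equiv.subRight j)) =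
      fun k => x (k - j) * ek k τ := by
    ext k
    simp only [Function.comp_apply, Equiv.subRight_apply]
    rw [show ek k τ = ek (k - j) τ * ek j τ by rw [← ek_add, sub_add_cancel]]
    ring
  rw [h3] at h2
  exact h2

lemma cos_eq_ek (τ : ℝ) : ((Real.cos τ : ℝ) : ℂ) = (ek 1 τ + ek (-1) τ) / 2 := by
  unfold ek
  rw [Complex.ofReal_cos, Complex.cos]
  congr 1
  congr 1
  · congr 1; push_cast; ring
  · congr 1; push_cast; ring

/-- The second-order equation for the sum of the series. -/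
lemma S_rec_hasDerivAt {m : ℕ} {a β : ℝ} {X : ℤ → ℂ} (hrec : Rec m a β X)
    (h : ∃ C, ∀ k : ℤ, ‖(k : ℂ) * X k‖ ≤ C) (τ : ℝ) :
    HasDerivAt (S (fun k => (k : ℂ) * X k))
      (-(Complex.I * ((m + a * Real.cos τ : ℝ) : ℂ) * S (fun k => (k : ℂ) * X k) τ) -
        Complex.I * β * S X τ) τ := by
  obtain ⟨h0, h1, h2⟩ := summable_of_rec hrec h
  refine (S_hasDerivAt h1 h2 τ).congr_deriv ?_
  have e1 := S_hasSum h0 τ
  have e2 := S_hasSum h1 τ
  have e3 := S_hasSum h2 τ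
  have e4 := S_shift_hasSum h1 1 τ
  have e5 := S_shift_hasSum h1 (-1) τ
  set A := S (fun k : ℤ => (k : ℂ) * X k) τ with hA
  set B := S X τ with hB
  set D := S (fun k : ℤ => (k : ℂ) * ((k : ℂ) * X k)) τ with hD
  have e6 := ((e3.add (e2.mul_left (m : ℂ))).add ((e4.add e5).mul_left (a / 2 : ℂ))).add
    (e1.mul_left (β : ℂ))
  have e7 : ∀ k : ℤ, (k : ℂ) * ((k : ℂ) * X k) * ek k τ + (m : ℂ) * ((k : ℂ) * X k * ek k τ) +
      (a / 2 : ℂ) * (((k - 1 : ℤ) : ℂ) * X (k - 1) * ek k τ +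
        ((k - (-1) : ℤ) : ℂ) * X (k - (-1)) * ek k τ) + (β : ℂ) * (X k * ek k τ) = 0 := by
    intro k
    have h3 := hrec k
    rw [sub_neg_eq_add]
    linear_combination (ek k τ) * h3
  simp only [e7] at e6
  have e8 := e6.unique hasSum_zero
  have e9 : D = -(m * A + a / 2 * (ek 1 τ * A + ek (-1) τ * A) + β * B) := by
    linear_combination e8
  rw [e9, Complex.ofReal_add, Complex.ofReal_mul, cos_eq_ek]
  push_cast
  ring

/-- The first auxiliary function. -/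
noncomputable def xi (m a b s τ : ℝ) : ℂ :=
  -(s * ((b / 2 : ℝ) : ℂ) * uu m a τ * conj (chi m a b s τ))

lemma chi_hasDerivAt {m a b s : ℝ} (hs : s = 1 ∨ s = -1) (τ : ℝ) :
    HasDerivAt (chi m a b s) (Complex.I * xi m a b s τ) τ := by
  refine (chi_linSol hs τ).congr_deriv ?_
  unfold xi
  ring

lemma sq_one {s : ℝ} (hs : s = 1 ∨ s = -1) : (s : ℂ) * s = 1 := by
  rcases hs with rfl | rfl <;> norm_num

lemma xi_hasDerivAt {m a b s : ℝ} (hs : s = 1 ∨ s = -1) (τ : ℝ) :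
    HasDerivAt (xi m a b s) (-(Complex.I * ((m + a * Real.cos τ : ℝ) : ℂ) * xi m a b s τ) -
      Complex.I * ((b ^ 2 / 4 : ℝ) : ℂ) * chi m a b s τ) τ := by
  have h1 := (chi_hasDerivAt (m := m) (a := a) (b := b) hs τ).star
  have h2 := (((uu_hasDerivAt m a τ).mul h1).const_mul (-(s * ((b / 2 : ℝ) : ℂ))))
  have h3 : xi m a b s = fun y => -(s * ((b / 2 : ℝ) : ℂ)) * ((uu m a) * fun x => star (chi m a b s x)) y := by
    ext y
    unfold xi
    simp only [Pi.mul_apply, Complex.star_def]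
    ring
  rw [h3]
  refine h2.congr_deriv ?_
  simp only [Pi.mul_apply, Complex.star_def, map_mul, Complex.conj_I]
  unfold xi
  simp only [map_neg, map_mul, Complex.conj_conj, Complex.conj_ofReal]
  have hu := uu_mul_conj m a τ
  have hss := sq_one hs
  push_cast
  linear_combination (-(Complex.I) * ((b : ℂ) / 2) ^ 2 * chi m a b s τ * (s : ℂ) * (s : ℂ)) * hu
    + (-(Complex.I) * ((b : ℂ) / 2) ^ 2 * chi m a b s τ) * hss

lemma chi_continuous {m a b s : ℝ} (hs : s = 1 ∨ s = -1) : Continuous (chi m a b s) :=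
  continuous_iff_continuousAt.mpr fun τ => (chi_hasDerivAt hs τ).continuousAt

lemma xi_continuous {m a b s : ℝ} (hs : s = 1 ∨ s = -1) : Continuous (xi m a b s) :=
  continuous_iff_continuousAt.mpr fun τ => (xi_hasDerivAt hs τ).continuousAt

lemma xi_periodic {m : ℕ} {a b s : ℝ} (hs : s = 1 ∨ s = -1) (h0 : yy m a b s = 0) (τ : ℝ) :
    xi m a b s (τ + 2 * π) = xi m a b s τ := by
  unfold xi
  rw [uu_periodic, chi_periodic hs h0]

lemma at_pi_of_periodic {f : ℝ → ℂ} (h : ∀ τ, f (τ + 2 * π) = f τ) : f π = f (-π) := by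
  rw [← h (-π)]
  congr 1
  ring

/-- Fourier coefficients of the auxiliary function. -/
lemma cf_xi {m : ℕ} {a b s : ℝ} (hs : s = 1 ∨ s = -1) (h0 : yy m a b s = 0) (k : ℤ) :
    cf (xi m a b s) k = (k : ℂ) * cf (chi m a b s) k := by
  have hxc := xi_continuous (m := m) (a := a) (b := b) hs
  have h := cf_deriv (chi_hasDerivAt (m := m) (a := a) (b := b) hs) (by fun_prop)
    (at_pi_of_periodic (chi_periodic hs h0)) k
  rw [cf_const_mul] at h
  have := Complex.I_ne_zero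
  have h2 : Complex.I * (cf (xi m a b s) k - (k : ℂ) * cf (chi m a b s) k) = 0 := by
    linear_combination h
  have h3 := (mul_eq_zero.mp h2).resolve_left this
  linear_combination h3

lemma chi_rec {m : ℕ} {a b s : ℝ} (hs : s = 1 ∨ s = -1) (h0 : yy m a b s = 0) :
    Rec m a (b ^ 2 / 4) (cf (chi m a b s)) := by
  intro k
  have hxc := xi_continuous (m := m) (a := a) (b := b) hs
  have hcc := chi_continuous (m := m) (a := a) (b := b) hs
  have h := cf_deriv (xi_hasDerivAt (m := m) (a := a) (b := b) hs) (by fun_prop)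
    (at_pi_of_periodic (xi_periodic hs h0)) k
  have e : (fun τ : ℝ => -(Complex.I * ((m + a * Real.cos τ : ℝ) : ℂ) * xi m a b s τ) -
      Complex.I * ((b ^ 2 / 4 : ℝ) : ℂ) * chi m a b s τ) = fun τ =>
      (-(Complex.I * m) * xi m a b s τ + (-(Complex.I * a / 2)) * (ek 1 τ * xi m a b s τ)) +
      ((-(Complex.I * a / 2)) * (ek (-1) τ * xi m a b s τ) +
        (-(Complex.I * ((b ^ 2 / 4 : ℝ) : ℂ))) * chi m a b s τ) := by
    ext τ
    rw [Complex.ofReal_add, Complex.ofReal_mul, cos_eq_ek]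
    push_cast
    ring
  have c1 := ek_continuous 1
  have c2 := ek_continuous (-1)
  rw [e, cf_add (by fun_prop) (by fun_prop), cf_add (by fun_prop) (by fun_prop),
    cf_add (by fun_prop) (by fun_prop), cf_const_mul, cf_const_mul, cf_const_mul, cf_const_mul,
    cf_ek_mul, cf_ek_mul, cf_xi hs h0, cf_xi hs h0, cf_xi hs h0, sub_neg_eq_add] at h
  have h2 : Complex.I * (((k : ℂ) + m) * ((k : ℂ) * cf (chi m a b s) k) +
      (a / 2 : ℂ) * (((k - 1 : ℤ) : ℂ) * cf (chi m a b s) (k - 1) +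
        ((k + 1 : ℤ) : ℂ) * cf (chi m a b s) (k + 1)) +
      ((b ^ 2 / 4 : ℝ) : ℂ) * cf (chi m a b s) k) = 0 := by
    linear_combination -h
  exact (mul_eq_zero.mp h2).resolve_left Complex.I_ne_zero

lemma cf_bounded {f : ℝ → ℂ} (hf : Continuous f) : ∃ C, ∀ k : ℤ, ‖cf f k‖ ≤ C := by
  obtain ⟨M, hM⟩ := (isCompact_uIcc (a := -π) (b := π)).exists_bound_of_continuousOn
    hf.continuousOn
  refine ⟨M * |π - -π|, fun k => ?_⟩
  unfold cf
  apply intervalIntegral.norm_integral_le_of_norm_le_const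
  intro τ hτ
  rw [norm_mul, norm_ek, mul_one]
  exact hM τ (uIoc_subset_uIcc hτ)

lemma chi_bounded {m : ℕ} {a b s : ℝ} (hs : s = 1 ∨ s = -1) (h0 : yy m a b s = 0) :
    ∃ C, ∀ k : ℤ, ‖(k : ℂ) * cf (chi m a b s) k‖ ≤ C := by
  obtain ⟨C, hC⟩ := cf_bounded (xi_continuous (m := m) (a := a) (b := b) hs)
  refine ⟨C, fun k => ?_⟩
  rw [← cf_xi hs h0]
  exact hC k

lemma chi_cf_real {m a b s : ℝ} (hs : s = 1 ∨ s = -1) (k : ℤ) :
    conj (cf (chi m a b s) k) = cf (chi m a b s) k := by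
  unfold cf
  rw [← intervalIntegral.intervalIntegral_conj]
  have h1 := intervalIntegral.integral_comp_neg (a := -π) (b := π)
    (fun τ => chi m a b s τ * ek (-k) τ)
  rw [neg_neg] at h1
  rw [← h1]
  congr 1
  ext τ
  rw [map_mul, conj_ek, chi_neg hs, ek_neg_arg]

end Pool.Agent.Lib52.Josephson
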