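import Mathlib
import Pool.Agent.Lib52.Jos5

open Set Filter Topology MeasureTheory
open scoped NNReal Real ComplexConjugate

namespace Pool.Agent.Lib52.Josephson

open Pool.Agent.Lib52.Fou

/-- The generating function on the unit circle. -/
noncomputable def gg (a τ : ℝ) : ℂ := Complex.exp (a * ek 1 τ)

lemma gg_hasDerivAt (a τ : ℝ) :
    HasDerivAt (gg a) (Complex.I * a * (ek 1 τ * gg a τ)) τ := by
  have h := ((ek_hasDerivAt 1 τ).const_mul (a : ℂ)).cexp
  refine h.congr_deriv ?_
  unfold gg
  push_cast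
  ring

lemma gg_continuous (a : ℝ) : Continuous (gg a) :=
  continuous_iff_continuousAt.mpr fun τ => (gg_hasDerivAt a τ).continuousAt

lemma gg_pi (a : ℝ) : gg a π = gg a (-π) := by
  unfold gg
  rw [ek_pi]

/-- Cauchy integrals of the generating function vanish. -/
lemma integral_gg (a : ℝ) (n : ℕ) :
    ∫ τ in (-π)..π, ek ((n : ℤ) + 1) τ * gg a τ = 0 := by
  have hg := gg_continuous a
  by_cases ha : a = 0
  · subst ha
    have : (fun τ => ek ((n : ℤ) + 1) τ * gg 0 τ) = ek ((n : ℤ) + 1) := by
      ext τ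
      simp [gg]
    rw [this, integral_ek]
    have : ((n : ℤ) + 1) ≠ 0 := by omega
    simp [this]
  · have ha' : (a : ℂ) ≠ 0 := by exact_mod_cast ha
    have step : ∀ n : ℕ, (n : ℂ) * (∫ τ in (-π)..π, ek (n : ℤ) τ * gg a τ) +
        a * ∫ τ in (-π)..π, ek ((n : ℤ) + 1) τ * gg a τ = 0 := by
      intro n
      have hc1 := ek_continuous (n : ℤ)
      have hc2 := ek_continuous ((n : ℤ) + 1)
      have hder : ∀ τ ∈ uIcc (-π) π, HasDerivAt (fun τ => ek (n : ℤ) τ * gg a τ)
          (Complex.I * n * (ek (n : ℤ) τ * gg a τ) +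
            Complex.I * a * (ek ((n : ℤ) + 1) τ * gg a τ)) τ := by
        intro τ _
        refine ((ek_hasDerivAt (n : ℤ) τ).mul (gg_hasDerivAt a τ)).congr_deriv ?_
        rw [ek_add]
        push_cast
        ring
      have h := intervalIntegral.integral_eq_sub_of_hasDerivAt hder (by
        apply Continuous.intervalIntegrable
        fun_prop)
      rw [ek_pi, gg_pi, sub_self, intervalIntegral.integral_add
        (by apply Continuous.intervalIntegrable; fun_prop)
        (by apply Continuous.intervalIntegrable; fun_prop),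
        intervalIntegral.integral_const_mul, intervalIntegral.integral_const_mul] at h
      have h2 : Complex.I * ((n : ℂ) * (∫ τ in (-π)..π, ek (n : ℤ) τ * gg a τ) +
        a * ∫ τ in (-π)..π, ek ((n : ℤ) + 1) τ * gg a τ) = 0 := by
        linear_combination h
      exact (mul_eq_zero.mp h2).resolve_left Complex.I_ne_zero
    induction n with
    | zero =>
      have h := step 0
      rw [Nat.cast_zero, zero_mul, zero_add] at h
      exact (mul_eq_zero.mp h).resolve_left ha'
    | succ n ih =>
      have h := step (n + 1)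
      have e : ((n + 1 : ℕ) : ℤ) = (n : ℤ) + 1 := by push_cast; ring
      rw [e, ih, mul_zero, zero_add] at h
      rw [e]
      exact (mul_eq_zero.mp h).resolve_left ha'

lemma conj_uu (m : ℕ) (a τ : ℝ) :
    ((Real.exp (a * Real.cos τ) : ℝ) : ℂ) * conj (uu m a τ) = ek m τ * gg a τ := by
  unfold uu gg ek theta
  rw [← Complex.exp_conj, Complex.ofReal_exp, ← Complex.exp_add, ← Complex.exp_add]
  congr 1
  have h1 : Complex.exp (Complex.I * ((1 : ℤ) : ℂ) * (τ : ℂ)) =
      Complex.cos τ + Complex.sin τ * Complex.I := by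
    rw [← Complex.exp_mul_I]
    congr 1
    push_cast
    ring
  rw [h1]
  simp only [map_neg, map_mul, Complex.conj_I, Complex.conj_ofReal]
  push_cast
  ring

/-- A periodic symmetric solution has a nonzero coefficient of negative index. -/
lemma exists_neg_coeff {m : ℕ} {a b s : ℝ} (hb : 0 < b) (hs : s = 1 ∨ s = -1)
    (h0 : yy m a b s = 0) : ∃ k : ℤ, k < 0 ∧ cf (chi m a b s) k ≠ 0 := by
  by_contra hcon
  push Not at hcon
  have hrec := chi_rec (m := m) (a := a) (b := b) hs h0
  obtain ⟨s0, s1, -⟩ := summable_of_rec hrec (chi_bounded hs h0)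
  have hcc := chi_continuous (m := m) (a := a) (b := b) hs
  have hxc := xi_continuous (m := m) (a := a) (b := b) hs
  have hgc := gg_continuous a
  set X := cf (chi m a b s) with hX
  have hchi : ∀ τ, chi m a b s τ = S (fun k => (1 / (2 * π) : ℂ) * X k) τ :=
    eq_S_of_summable hcc (chi_periodic hs h0) s0
  have hcfxi : cf (xi m a b s) = fun k : ℤ => (k : ℂ) * X k := by
    ext k
    exact cf_xi hs h0 k
  have hxi : ∀ τ, xi m a b s τ = S (fun k => (1 / (2 * π) : ℂ) * ((k : ℂ) * X k)) τ := by
    intro τ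
    have := eq_S_of_summable hxc (xi_periodic hs h0) (by rw [hcfxi]; exact s1) τ
    rw [hcfxi] at this
    exact this
  have s0' : Summable fun k => ‖(1 / (2 * π) : ℂ) * X k‖ := by
    simp_rw [norm_mul]
    exact s0.mul_left _
  have s1' : Summable fun k : ℤ => ‖(1 / (2 * π) : ℂ) * ((k : ℂ) * X k)‖ := by
    simp_rw [norm_mul (1 / (2 * π) : ℂ)]
    exact s1.mul_left _
  -- inner integrals vanish
  have inner : ∀ n : ℕ, ∫ τ in (-π)..π, chi m a b s τ * (ek ((n : ℤ) + 1) τ * gg a τ) = 0 := by
    intro n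
    have hc1 := ek_continuous ((n : ℤ) + 1)
    have h := integral_S_mul s0' (g := fun τ => ek ((n : ℤ) + 1) τ * gg a τ) (by fun_prop)
    have hz : ∀ k : ℤ, (1 / (2 * π) : ℂ) * X k *
        ∫ τ in (-π)..π, ek k τ * (ek ((n : ℤ) + 1) τ * gg a τ) = 0 := by
      intro k
      rcases lt_or_ge k 0 with hk | hk
      · rw [hcon k hk]; ring
      · obtain ⟨j, rfl⟩ := Int.eq_ofNat_of_zero_le hk
        have e := integral_gg a (j + n)
        have e2 : (fun τ => ek (j : ℤ) τ * (ek ((n : ℤ) + 1) τ * gg a τ)) =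
            fun τ => ek (((j + n : ℕ) : ℤ) + 1) τ * gg a τ := by
          ext τ
          rw [show (((j + n : ℕ) : ℤ) + 1) = (j : ℤ) + ((n : ℤ) + 1) by push_cast; ring,
            ek_add (j : ℤ) ((n : ℤ) + 1)]
          ring
        rw [e2, e, mul_zero]
    simp only [hz] at h
    have h2 := h.unique hasSum_zero
    rw [← h2]
    congr 1
    ext τ
    rw [hchi]
  have outer : ∫ τ in (-π)..π, xi m a b s τ * (ek m τ * gg a τ * chi m a b s τ) = 0 := by
    have hc1 := ek_continuous (m : ℤ)
    have h := integral_S_mul s1' (g := fun τ => ek m τ * gg a τ * chi m a b s τ) (by fun_prop)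
    have hz : ∀ k : ℤ, (1 / (2 * π) : ℂ) * ((k : ℂ) * X k) *
        ∫ τ in (-π)..π, ek k τ * (ek m τ * gg a τ * chi m a b s τ) = 0 := by
      intro k
      rcases lt_trichotomy k 0 with hk | hk | hk
      · rw [hcon k hk]; ring
      · subst hk; simp
      · obtain ⟨j, hj⟩ := Int.eq_ofNat_of_zero_le (show 0 ≤ k - 1 by omega)
        have hk2 : k = (j : ℤ) + 1 := by
          have : k - 1 = (j : ℤ) := hj
          omega
        have e := inner (j + m)
        have e2 : (fun τ => ek k τ * (ek m τ * gg a τ * chi m a b s τ)) =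
            fun τ => chi m a b s τ * (ek (((j + m : ℕ) : ℤ) + 1) τ * gg a τ) := by
          ext τ
          rw [show (((j + m : ℕ) : ℤ) + 1) = k + (m : ℤ) by rw [hk2]; push_cast; ring, ek_add]
          ring
        rw [e2, e, mul_zero]
    simp only [hz] at h
    have h2 := h.unique hasSum_zero
    rw [← h2]
    congr 1
    ext τ
    rw [hxi]
  have hpt : ∀ τ, ((Real.exp (a * Real.cos τ) * ‖xi m a b s τ‖ ^ 2 : ℝ) : ℂ) =
      -((s : ℂ) * ((b / 2 : ℝ) : ℂ)) * (xi m a b s τ * (ek m τ * gg a τ * chi m a b s τ)) := by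
    intro τ
    rw [← conj_uu]
    have e1 : ((‖xi m a b s τ‖ ^ 2 : ℝ) : ℂ) = xi m a b s τ * conj (xi m a b s τ) := by
      rw [Complex.mul_conj, Complex.normSq_eq_norm_sq]
    rw [Complex.ofReal_mul, e1]
    have e2 : conj (xi m a b s τ) = -((s : ℂ) * ((b / 2 : ℝ) : ℂ) * conj (uu m a τ) *
        chi m a b s τ) := by
      unfold xi
      simp only [map_neg, map_mul, Complex.conj_conj, Complex.conj_ofReal]
    rw [e2]
    ring
  have hzero : ((∫ τ in (-π)..π, Real.exp (a * Real.cos τ) * ‖xi m a b s τ‖ ^ 2 : ℝ) : ℂ) = 0 := by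
    rw [← intervalIntegral.integral_ofReal]
    simp_rw [hpt]
    rw [intervalIntegral.integral_const_mul, outer, mul_zero]
  have hzero' : ∫ τ in (-π)..π, Real.exp (a * Real.cos τ) * ‖xi m a b s τ‖ ^ 2 = 0 := by
    exact_mod_cast hzero
  have hpos : 0 < ∫ τ in (-π)..π, Real.exp (a * Real.cos τ) * ‖xi m a b s τ‖ ^ 2 := by
    apply intervalIntegral.intervalIntegral_pos_of_pos
    · apply Continuous.intervalIntegrable
      fun_prop
    · intro τ
      have hne : xi m a b s τ ≠ 0 := by
        unfold xi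
        rw [neg_ne_zero]
        have hs1 : (s : ℂ) ≠ 0 := by rcases hs with rfl | rfl <;> norm_num
        have hb1 : ((b / 2 : ℝ) : ℂ) ≠ 0 := by
          rw [Complex.ofReal_ne_zero]; positivity
        have hu1 : uu m a τ ≠ 0 := Complex.exp_ne_zero _
        have hc1 : conj (chi m a b s τ) ≠ 0 := by
          rw [conj_chi]; exact Complex.exp_ne_zero _
        exact mul_ne_zero (mul_ne_zero (mul_ne_zero hs1 hb1) hu1) hc1
      have := norm_pos_iff.mpr hne
      positivity
    · linarith [Real.pi_pos]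
  linarith

end Pool.Agent.Lib52.Josephson
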