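import Mathlib
import Pool.Agent.Lib52.Jos6

open Set Filter Topology MeasureTheory
open scoped NNReal Real ComplexConjugate

namespace Pool.Agent.Lib52.Josephson

open Pool.Agent.Lib52.Fou

/-- Truncation of the coefficients to nonpositive indices. -/
noncomputable def trunc (c : ℂ) (X : ℤ → ℂ) (k : ℤ) : ℂ :=
  if k < 0 then X k else if k = 0 then c * X (-1) else 0

lemma trunc_neg (c : ℂ) (X : ℤ → ℂ) {k : ℤ} (hk : k < 0) : trunc c X k = X k := by
  simp [trunc, hk]

lemma trunc_zero (c : ℂ) (X : ℤ → ℂ) : trunc c X 0 = c * X (-1) := by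
  simp [trunc]

lemma trunc_pos (c : ℂ) (X : ℤ → ℂ) {k : ℤ} (hk : 0 < k) : trunc c X k = 0 := by
  have h1 : ¬ k < 0 := by omega
  have h2 : ¬ k = 0 := by omega
  simp [trunc, h1, h2]

lemma trunc_rec {m : ℕ} {a β : ℝ} (hβ : β ≠ 0) {X : ℤ → ℂ} (h : Rec m a β X) :
    Rec m a β (trunc ((a / (2 * β) : ℝ) : ℂ) X) := by
  have hβ' : (β : ℂ) ≠ 0 := by exact_mod_cast hβ
  intro k
  rcases lt_trichotomy k 0 with hk | hk | hk
  · by_cases hk1 : k = -1
    · subst hk1
      have h1 := h (-1)
      rw [trunc_neg _ _ (show (-1 : ℤ) < 0 by norm_num),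
        trunc_neg _ _ (show (-1 - 1 : ℤ) < 0 by norm_num)]
      norm_num at h1 ⊢
      exact h1
    · rw [trunc_neg _ _ hk, trunc_neg _ _ (show k - 1 < 0 by omega),
        trunc_neg _ _ (show k + 1 < 0 by omega)]
      exact h k
  · subst hk
    rw [trunc_zero, trunc_neg _ _ (show (0 - 1 : ℤ) < 0 by norm_num),
      trunc_pos _ _ (show (0 : ℤ) < 0 + 1 by norm_num)]
    push_cast
    field_simp
    norm_num
  · rw [trunc_pos _ _ hk, trunc_pos _ _ (show 0 < k + 1 by omega)]
    by_cases hk1 : k = 1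
    · subst hk1
      norm_num
    · rw [trunc_pos _ _ (show 0 < k - 1 by omega)]
      ring

lemma conj_S {x : ℤ → ℂ} (hx : ∀ k, conj (x k) = x k) (τ : ℝ) : conj (S x τ) = S x (-τ) := by
  unfold S
  rw [Complex.conj_tsum]
  congr 1
  ext k
  rw [map_mul, hx, conj_ek, ek_neg_arg]

/-- The key lemma. -/
lemma key {m : ℕ} {a b s : ℝ} (hb : 0 < b) (hs : s = 1 ∨ s = -1) (h0 : yy m a b s = 0) :
    ∃ s' : ℝ, (s' = 1 ∨ s' = -1) ∧ yy m a b s' = 0 ∧
      0 < ∫ τ in (0 : ℝ)..π, wt m a b s' τ * Real.sin (orb m a b s' τ) := by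
  set β : ℝ := b ^ 2 / 4 with hβ
  have hβpos : 0 < β := by positivity
  set X := cf (chi m a b s) with hX
  have hrecX : Rec m a β X := chi_rec hs h0
  set x := trunc ((a / (2 * β) : ℝ) : ℂ) X with hx
  have hrec : Rec m a β x := trunc_rec hβpos.ne' hrecX
  have hreal : ∀ k, conj (x k) = x k := by
    intro k
    have hXr : ∀ j, conj (X j) = X j := fun j => chi_cf_real hs j
    rcases lt_trichotomy k 0 with hk | hk | hk
    · rw [hx, trunc_neg _ _ hk, hXr]
    · subst hk
      rw [hx, trunc_zero, map_mul, hXr, Complex.conj_ofReal]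
    · rw [hx, trunc_pos _ _ hk, map_zero]
  have hbd : ∃ C, ∀ k : ℤ, ‖(k : ℂ) * x k‖ ≤ C := by
    obtain ⟨C, hC⟩ := chi_bounded (m := m) (a := a) hs h0
    have hC0 : 0 ≤ C := (norm_nonneg _).trans (hC 0)
    refine ⟨C, fun k => ?_⟩
    rcases lt_trichotomy k 0 with hk | hk | hk
    · rw [hx, trunc_neg _ _ hk]
      exact hC k
    · subst hk
      simpa using hC0
    · rw [hx, trunc_pos _ _ hk]
      simpa using hC0
  obtain ⟨s0, s1, s2⟩ := summable_of_rec hrec hbd
  set f := S x with hf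
  set g := S (fun k : ℤ => (k : ℂ) * x k) with hg
  have hfd : ∀ τ, HasDerivAt f (Complex.I * g τ) τ := fun τ => S_hasDerivAt s0 s1 τ
  have hgd : ∀ τ, HasDerivAt g (-(Complex.I * ((m + a * Real.cos τ : ℝ) : ℂ) * g τ) -
      Complex.I * β * f τ) τ := fun τ => S_rec_hasDerivAt hrec hbd τ
  have hfc : Continuous f := S_continuous s0
  have hgc : Continuous g := S_continuous s1
  have hfr : conj (f 0) = f 0 := by
    have := conj_S hreal 0
    rwa [neg_zero] at this
  have hgr : conj (g 0) = g 0 := by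
    have := conj_S (x := fun k : ℤ => (k : ℂ) * x k) (fun k => by
      rw [map_mul, hreal, map_intCast]) 0
    rwa [neg_zero] at this
  set κ : ℝ := b / 2 with hκ
  have hκpos : 0 < κ := by positivity
  have hκne : (κ : ℂ) ≠ 0 := by exact_mod_cast hκpos.ne'
  have hβκ : (β : ℂ) = κ * κ := by
    rw [hβ, hκ]; push_cast; ring
  -- the two components
  set F : ℝ → ℝ → ℂ := fun σ τ => (f τ - σ / κ * (uu m a τ * conj (g τ))) / 2 with hF
  have hFlin : ∀ σ : ℝ, (σ = 1 ∨ σ = -1) → LinSol m a κ σ (F σ) := by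
    intro σ hσ τ
    have h1 := (hgd τ).star
    have h2 := (uu_hasDerivAt m a τ).mul h1
    have h3 := (((hfd τ).sub (h2.const_mul ((σ : ℂ) / κ))).div_const 2)
    have h4 : F σ = fun y => (f - fun y => (σ : ℂ) / κ * ((uu m a) * fun x => star (g x)) y) y / 2 := by
      ext y
      simp only [hF, Pi.sub_apply, Pi.mul_apply, Complex.star_def]
    rw [h4]
    refine h3.congr_deriv ?_
    have hu := uu_mul_conj m a τ
    have hss := sq_one hσ
    simp only [Pi.mul_apply, Pi.sub_apply, Complex.star_def, map_sub, map_neg, map_mul,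
      Complex.conj_I, Complex.conj_ofReal, map_div₀, Complex.conj_conj, hβκ]
    have h2c : conj (2 : ℂ) = 2 := Complex.conj_ofNat 2
    rw [h2c]
    field_simp
    linear_combination (-(κ * g τ) * (σ : ℂ) * σ) * hu - (κ * g τ) * hss
  have hFreal : ∀ σ : ℝ, conj (F σ 0) = F σ 0 := by
    intro σ
    simp only [hF, map_sub, map_mul, map_div₀, Complex.conj_ofReal, uu_zero,
      hfr, hgr, one_mul, Complex.conj_ofNat]
  have hFchi : ∀ σ : ℝ, (σ = 1 ∨ σ = -1) → ∀ τ, F σ τ = ((F σ 0).re : ℂ) * chi m a b σ τ := by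
    intro σ hσ τ
    have h1 := linSol_unique (hFlin σ hσ)
      ((chi_linSol (m := m) (a := a) (b := b) hσ).smul (F σ 0).re) (τ₀ := 0) (by
        rw [chi_zero, mul_one]
        exact (Complex.conj_eq_iff_re.mp (hFreal σ)).symm)
    exact congrFun h1 τ
  have hFper : ∀ σ : ℝ, F σ π = F σ (-π) := by
    intro σ
    apply at_pi_of_periodic
    intro τ
    simp only [hF, hf, hg, S_periodic, uu_periodic]
  -- pointwise identity
  have hpt : ∀ τ, g τ * conj (f τ) =
      -κ * (uu m a τ * conj (F 1 τ) ^ 2 - uu m a τ * conj (F (-1) τ) ^ 2) := by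
    intro τ
    have hu := uu_mul_conj m a τ
    simp only [hF, map_sub, map_mul, map_div₀, Complex.conj_ofReal, Complex.conj_conj,
      Complex.conj_ofNat]
    push_cast
    field_simp
    linear_combination (-(κ * g τ * conj (f τ)) * 4) * hu
  have hptre : ∀ τ, (g τ * conj (f τ)).re =
      -κ * ((F 1 0).re ^ 2 * (wt m a b 1 τ * Real.sin (orb m a b 1 τ)) +
        (F (-1) 0).re ^ 2 * (wt m a b (-1) τ * Real.sin (orb m a b (-1) τ))) := by
    intro τ
    rw [hpt τ, hFchi 1 (Or.inl rfl), hFchi (-1) (Or.inr rfl)]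
    have e1 := chi_quad_re (m := m) (a := a) (b := b) (s := 1) (Or.inl rfl) τ
    have e2 := chi_quad_re (m := m) (a := a) (b := b) (s := -1) (Or.inr rfl) τ
    have e3 : ∀ (p : ℝ) (z : ℂ), uu m a τ * conj ((p : ℂ) * z) ^ 2 =
        ((p ^ 2 : ℝ) : ℂ) * (uu m a τ * conj z ^ 2) := by
      intro p z
      rw [map_mul, Complex.conj_ofReal]
      push_cast
      ring
    rw [e3, e3]
    rw [show (-(κ : ℂ)) = ((-κ : ℝ) : ℂ) by push_cast; ring, Complex.re_ofReal_mul,
      Complex.sub_re, Complex.re_ofReal_mul, Complex.re_ofReal_mul, e1, e2]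
    ring
  -- the Fourier side
  have hsum := integral_S_mul s1 (g := fun τ => conj (f τ)) (by fun_prop)
  have hterm : ∀ k : ℤ, (k : ℂ) * x k * ∫ τ in (-π)..π, ek k τ * conj (f τ) =
      ((2 * π * (k * (x k).re ^ 2) : ℝ) : ℂ) := by
    intro k
    have e1 : ∫ τ in (-π)..π, ek k τ * conj (f τ) = conj (cf f k) := by
      unfold cf
      rw [← intervalIntegral.intervalIntegral_conj]
      congr 1
      ext τ
      rw [map_mul, conj_ek, neg_neg]
      ring
    have e2 : x k = ((x k).re : ℂ) := (Complex.conj_eq_iff_re.mp (hreal k)).symm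
    rw [e1, hf, cf_S s0 k, map_mul, map_mul, hreal, Complex.conj_ofReal, Complex.conj_ofNat]
    rw [e2]
    push_cast
    rw [Complex.ofReal_re]
    ring
  simp only [hterm] at hsum
  have hsum2 : HasSum (fun k : ℤ => 2 * π * (k * (x k).re ^ 2))
      (∫ τ in (-π)..π, g τ * conj (f τ)).re := by
    have := Complex.hasSum_re hsum
    simpa only [Complex.ofReal_re] using this
  obtain ⟨k₀, hk₀, hk₀ne⟩ := exists_neg_coeff (m := m) (a := a) hb hs h0
  have hlt : (∫ τ in (-π)..π, g τ * conj (f τ)).re < 0 := by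
    apply hasSum_lt (f := fun k : ℤ => 2 * π * (k * (x k).re ^ 2)) (g := fun _ => (0 : ℝ))
      (i := k₀) _ _ hsum2 hasSum_zero
    · intro k
      simp only
      rcases lt_trichotomy k 0 with hk | hk | hk
      · have h1 : (k : ℝ) ≤ 0 := by exact_mod_cast hk.le
        have h2 : (k : ℝ) * (x k).re ^ 2 ≤ 0 := mul_nonpos_of_nonpos_of_nonneg h1 (sq_nonneg _)
        exact mul_nonpos_of_nonneg_of_nonpos (by have := Real.pi_pos; positivity) h2
      · subst hk; simp
      · rw [hx, trunc_pos _ _ hk]; simp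
    · have h1 : (k₀ : ℝ) < 0 := by exact_mod_cast hk₀
      have h2 : (x k₀).re ≠ 0 := by
        intro hcon
        have e2 : x k₀ = ((x k₀).re : ℂ) := (Complex.conj_eq_iff_re.mp (hreal k₀)).symm
        rw [hcon, hx, trunc_neg _ _ hk₀] at e2
        exact hk₀ne (by rw [← hX, e2]; simp)
      have h3 : 0 < (x k₀).re ^ 2 := by positivity
      have h4 : (k₀ : ℝ) * (x k₀).re ^ 2 < 0 := mul_neg_of_neg_of_pos h1 h3
      exact mul_neg_of_pos_of_neg (by have := Real.pi_pos; positivity) h4
  -- the integral side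
  have hc1 := wt_continuous m a b 1
  have hc2 := wt_continuous m a b (-1)
  have ho1 := orb_continuous m a b 1
  have ho2 := orb_continuous m a b (-1)
  have hint : (∫ τ in (-π)..π, g τ * conj (f τ)).re =
      ∫ τ in (-π)..π, (g τ * conj (f τ)).re := by
    have := intervalIntegral.intervalIntegral_re (𝕜 := ℂ) (a := -π) (b := π) (μ := volume)
      (f := fun τ => g τ * conj (f τ)) (by
        apply Continuous.intervalIntegrable
        fun_prop)
    exact this.symm
  rw [hint] at hlt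
  simp_rw [hptre] at hlt
  rw [intervalIntegral.integral_const_mul, intervalIntegral.integral_add
    (by apply Continuous.intervalIntegrable; fun_prop)
    (by apply Continuous.intervalIntegrable; fun_prop),
    intervalIntegral.integral_const_mul, intervalIntegral.integral_const_mul] at hlt
  set I1 := ∫ τ in (-π)..π, wt m a b 1 τ * Real.sin (orb m a b 1 τ) with hI1
  set I2 := ∫ τ in (-π)..π, wt m a b (-1) τ * Real.sin (orb m a b (-1) τ) with hI2
  have hpos : 0 < (F 1 0).re ^ 2 * I1 + (F (-1) 0).re ^ 2 * I2 := by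
    by_contra hcon
    push Not at hcon
    have := mul_nonneg hκpos.le (neg_nonneg.mpr hcon)
    linarith
  have hcase : ∃ σ : ℝ, (σ = 1 ∨ σ = -1) ∧
      0 < (F σ 0).re ^ 2 * ∫ τ in (-π)..π, wt m a b σ τ * Real.sin (orb m a b σ τ) := by
    rcases lt_or_ge 0 ((F 1 0).re ^ 2 * I1) with h | h
    · exact ⟨1, Or.inl rfl, h⟩
    · exact ⟨-1, Or.inr rfl, by linarith⟩
  obtain ⟨σ, hσ, hσpos⟩ := hcase
  have hp : (F σ 0).re ≠ 0 := by
    intro hcon
    rw [hcon] at hσpos
    simp at hσpos
  have hIpos : 0 < ∫ τ in (-π)..π, wt m a b σ τ * Real.sin (orb m a b σ τ) := by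
    by_contra hcon
    push Not at hcon
    have := mul_nonpos_of_nonneg_of_nonpos (sq_nonneg (F σ 0).re) hcon
    linarith
  refine ⟨σ, hσ, ?_, ?_⟩
  · have hper : chi m a b σ π = chi m a b σ (-π) := by
      have h1 := hFper σ
      rw [hFchi σ hσ π, hFchi σ hσ (-π)] at h1
      exact mul_left_cancel₀ (Complex.ofReal_ne_zero.mpr hp) h1
    apply yy_zero_of_periodic hσ hper
    have hd := yy_diff_lt m a b
    rcases hs with rfl | rfl <;> rcases hσ with rfl | rfl
    · rw [h0, abs_zero]; exact Real.pi_pos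
    · rw [h0, zero_sub, abs_neg] at hd; exact hd
    · rw [h0, sub_zero] at hd; exact hd
    · rw [h0, abs_zero]; exact Real.pi_pos
  · have hcw := wt_continuous m a b σ
    have hco := orb_continuous m a b σ
    rw [integral_even (by fun_prop) (wt_sin_even hσ)] at hIpos
    linarith

end Pool.Agent.Lib52.Josephson
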