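import Mathlib
import Pool.Agent.Lib52.Jos7

open Set Filter Topology MeasureTheory
open scoped NNReal Real ComplexConjugate

namespace Pool.Agent.Lib52.Josephson

open Pool.Agent.Lib52.Fou

lemma yy_close (m a b a' b' s : ℝ) :
    |yy m a b s - yy m a' b' s| ≤ (|a - a'| + |b - b'|) * Real.exp ((|b| + 1) * π) := by
  have h := orb_close m a b a' b' s π Real.pi_pos.le
  have e : yy m a b s - yy m a' b' s = orb m a b s π - orb m a' b' s π := by
    unfold yy; ring
  rw [e]
  exact h

lemma yy_continuous_b (m a s : ℝ) : Continuous fun b => yy m a b s := by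
  rw [Metric.continuous_iff]
  intro b ε hε
  set E := Real.exp ((|b| + 1) * π) with hE
  have hEpos : 0 < E := Real.exp_pos _
  refine ⟨ε / E, by positivity, fun b' hb' => ?_⟩
  have h := yy_close m a b a b' s
  rw [sub_self, abs_zero, zero_add] at h
  rw [Real.dist_eq] at hb' ⊢
  rw [abs_sub_comm]
  rw [abs_sub_comm, lt_div_iff₀ hEpos] at hb'
  linarith

lemma yy_continuous_a (m b s : ℝ) : Continuous fun a => yy m a b s := by
  rw [Metric.continuous_iff]
  intro a ε hε
  set E := Real.exp ((|b| + 1) * π) with hE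
  have hEpos : 0 < E := Real.exp_pos _
  refine ⟨ε / E, by positivity, fun a' ha' => ?_⟩
  have h := yy_close m a b a' b s
  rw [sub_self, abs_zero, add_zero] at h
  rw [Real.dist_eq] at ha' ⊢
  rw [abs_sub_comm]
  rw [abs_sub_comm, lt_div_iff₀ hEpos] at ha'
  linarith

/-- Positivity propagates down to `b = 0`. -/
lemma pos_down {m : ℕ} {a b₀ : ℝ} (h1 : 0 < yy m a b₀ 1) (h2 : 0 < yy m a b₀ (-1)) :
    ∀ b, 0 < b → b ≤ b₀ → 0 < yy m a b 1 ∧ 0 < yy m a b (-1) := by
  intro bs hbs hbsle
  by_contra hcon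
  set u : ℝ → ℝ := fun b => min (yy m a b 1) (yy m a b (-1)) with hu
  have huc : Continuous u := (yy_continuous_b m a 1).min (yy_continuous_b m a (-1))
  have hu0 : 0 < u b₀ := lt_min h1 h2
  have hus : u bs ≤ 0 := by
    by_contra h
    push Not at h
    exact hcon (lt_min_iff.mp h)
  set T : Set ℝ := Icc bs b₀ ∩ u ⁻¹' (Iic 0) with hT
  have hTc : IsCompact T := isCompact_Icc.inter_right (isClosed_Iic.preimage huc)
  have hTne : T.Nonempty := ⟨bs, ⟨left_mem_Icc.mpr hbsle, hus⟩⟩
  obtain ⟨b₁, hb₁T, hb₁max⟩ := hTc.exists_isMaxOn hTne continuousOn_id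
  have hb₁u : u b₁ ≤ 0 := hb₁T.2
  have hb₁lt : b₁ < b₀ := by
    rcases lt_or_eq_of_le hb₁T.1.2 with h | h
    · exact h
    · rw [h] at hb₁u
      linarith
  have hpos : ∀ b, b₁ < b → b ≤ b₀ → 0 < u b := by
    intro b hb1 hb2
    by_contra h
    push Not at h
    have : b ≤ b₁ := hb₁max ⟨⟨hb₁T.1.1.trans hb1.le, hb2⟩, h⟩
    linarith
  have hu1 : u b₁ = 0 := by
    apply le_antisymm hb₁u
    have htend : Tendsto u (𝓝[>] b₁) (𝓝 (u b₁)) := huc.continuousAt.continuousWithinAt
    apply ge_of_tendsto htend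
    filter_upwards [Ioo_mem_nhdsGT hb₁lt] with b hb
    exact (hpos b hb.1 hb.2.le).le
  have hb₁pos : 0 < b₁ := hbs.trans_le hb₁T.1.1
  have hex : ∃ s : ℝ, (s = 1 ∨ s = -1) ∧ yy m a b₁ s = 0 := by
    rcases min_choice (yy m a b₁ 1) (yy m a b₁ (-1)) with h | h
    · exact ⟨1, Or.inl rfl, by rw [← h]; exact hu1⟩
    · exact ⟨-1, Or.inr rfl, by rw [← h]; exact hu1⟩
  obtain ⟨s, hs, hs0⟩ := hex
  obtain ⟨s', hs', hs'0, hI⟩ := key hb₁pos hs hs0
  obtain ⟨ε, hε, hneg⟩ := yy_neg_right hs'0 hI
  set b₂ := min (b₁ + ε / 2) b₀ with hb₂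
  have h3 : b₁ < b₂ := lt_min (by linarith) hb₁lt
  have h4 : b₂ < b₁ + ε := (min_le_left _ _).trans_lt (by linarith)
  have h5 := hneg b₂ h3 h4
  have h6 := hpos b₂ h3 (min_le_right _ _)
  have h7 := lt_min_iff.mp h6
  rcases hs' with rfl | rfl
  · linarith [h7.1]
  · linarith [h7.2]

/-- Moments. -/
noncomputable def GG (m : ℕ) (n : ℕ) (a : ℝ) : ℂ :=
  ∫ τ in (-π)..π, ((Real.sin τ ^ n : ℝ) : ℂ) * uu m a τ

lemma GG_hasDerivAt (m n : ℕ) (a : ℝ) :
    HasDerivAt (GG m n) (-(Complex.I * GG m (n + 1) a)) a := by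
  have hF' : ∀ a : ℝ, Continuous fun τ : ℝ =>
      -(Complex.I * (((Real.sin τ ^ (n + 1) : ℝ) : ℂ) * uu m a τ)) := by
    intro a
    have := uu_continuous m a
    fun_prop
  have h := intervalIntegral.hasDerivAt_integral_of_dominated_loc_of_deriv_le (μ := volume)
    (𝕜 := ℝ) (a := -π) (b := π)
    (F := fun a τ => ((Real.sin τ ^ n : ℝ) : ℂ) * uu m a τ)
    (F' := fun a τ => -(Complex.I * (((Real.sin τ ^ (n + 1) : ℝ) : ℂ) * uu m a τ)))
    (x₀ := a) (s := univ) (bound := fun _ => 1) univ_mem
    (by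
      filter_upwards with x
      apply Continuous.aestronglyMeasurable
      have := uu_continuous m x
      fun_prop)
    (by
      apply Continuous.intervalIntegrable
      have := uu_continuous m a
      fun_prop)
    ((hF' a).aestronglyMeasurable)
    (by
      filter_upwards with τ _ x _
      rw [norm_neg, norm_mul, norm_mul, Complex.norm_I, norm_uu, one_mul, mul_one,
        Complex.norm_real, norm_pow, Real.norm_eq_abs]
      exact pow_le_one₀ (abs_nonneg _) (Real.abs_sin_le_one τ))
    (by simp)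
    (by
      filter_upwards with τ _ x _
      have h1 : HasDerivAt (fun a : ℝ => theta m a τ) (Real.sin τ) x := by
        unfold theta
        have := ((hasDerivAt_id x).mul_const (Real.sin τ)).const_add ((m : ℝ) * τ)
        simpa using this
      have h2 := ((h1.ofReal_comp.const_mul Complex.I).neg.cexp).const_mul
        ((Real.sin τ ^ n : ℝ) : ℂ)
      refine h2.congr_deriv ?_
      unfold uu
      simp only [Pi.neg_apply]
      push_cast
      ring)
  refine h.2.congr_deriv ?_
  unfold GG
  rw [intervalIntegral.integral_neg, intervalIntegral.integral_const_mul]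

lemma GG_zero_eq (m : ℕ) (a : ℝ) :
    GG m 0 a = ((2 * ∫ τ in (0 : ℝ)..π, Real.cos (theta m a τ) : ℝ) : ℂ) := by
  have hth := theta_continuous m a
  have huc := uu_continuous m a
  have h1 := intervalIntegral.integral_comp_neg (a := 0) (b := π) (fun τ => uu m a τ)
  rw [neg_zero] at h1
  unfold GG
  simp only [pow_zero, Complex.ofReal_one, one_mul]
  rw [← intervalIntegral.integral_add_adjacent_intervals (b := 0)
    (huc.intervalIntegrable _ _) (huc.intervalIntegrable _ _), ← h1,
    ← intervalIntegral.integral_add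
      (by apply Continuous.intervalIntegrable; fun_prop)
      (by apply Continuous.intervalIntegrable; fun_prop),
    ← intervalIntegral.integral_const_mul, ← intervalIntegral.integral_ofReal]
  congr 1
  ext τ
  unfold uu
  rw [theta_neg]
  push_cast
  rw [Complex.cos]
  rw [show -(Complex.I * -(theta m a τ : ℂ)) = theta m a τ * Complex.I by ring,
    show -(Complex.I * (theta m a τ : ℂ)) = -theta m a τ * Complex.I by ring]
  ring

lemma integral_sin_pow_ek (m : ℕ) :
    ∫ τ in (-π)..π, ((Real.sin τ ^ m : ℝ) : ℂ) * ek (-m) τ ≠ 0 := by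
  have hpt : ∀ τ : ℝ, ((Real.sin τ ^ m : ℝ) : ℂ) * ek (-m) τ =
      ∑ j ∈ Finset.range (m + 1), ((1 / (2 * Complex.I)) ^ m * ((-1) ^ j * (m.choose j : ℂ))) *
        ek (-(2 * j)) τ := by
    intro τ
    have h1 : ((Real.sin τ : ℝ) : ℂ) = (ek 1 τ - ek (-1) τ) / (2 * Complex.I) := by
      unfold ek
      rw [Complex.ofReal_sin, Complex.sin]
      have e1 : Complex.I * ((1 : ℤ) : ℂ) * (τ : ℂ) = τ * Complex.I := by push_cast; ring
      have e2 : Complex.I * ((-1 : ℤ) : ℂ) * (τ : ℂ) = -τ * Complex.I := by push_cast; ring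
      rw [e1, e2]
      have := Complex.I_ne_zero
      field_simp
      rw [Complex.I_sq]
      ring
    have hpow : ∀ (k : ℤ) (n : ℕ), ek k τ ^ n = ek (k * n) τ := by
      intro k n
      unfold ek
      rw [← Complex.exp_nat_mul]
      congr 1
      push_cast
      ring
    have h2 : ek (-m) τ = (ek (-1) τ) ^ m := by
      rw [hpow]; congr 1; ring
    rw [Complex.ofReal_pow, h1, h2, ← mul_pow]
    have h3 : (ek 1 τ - ek (-1) τ) / (2 * Complex.I) * ek (-1) τ =
        (1 / (2 * Complex.I)) * (-ek (-2) τ + 1) := by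
      have e1 : ek 1 τ * ek (-1) τ = 1 := by rw [← ek_add]; simp
      have e2 : ek (-1) τ * ek (-1) τ = ek (-2) τ := by rw [← ek_add]; norm_num
      have := Complex.I_ne_zero
      field_simp
      linear_combination e1 - e2
    rw [h3, mul_pow, add_pow, Finset.mul_sum]
    apply Finset.sum_congr rfl
    intro j _
    rw [neg_pow, hpow, one_pow]
    rw [show (-2 : ℤ) * (j : ℤ) = -(2 * j) by ring]
    ring
  simp_rw [hpt]
  rw [intervalIntegral.integral_finsetSum (fun j _ => by
    apply Continuous.intervalIntegrable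
    have := ek_continuous (-(2 * j))
    fun_prop)]
  simp_rw [intervalIntegral.integral_const_mul, integral_ek]
  rw [Finset.sum_eq_single 0]
  · have hpi : (π : ℂ) ≠ 0 := by exact_mod_cast Real.pi_ne_zero
    have := Complex.I_ne_zero
    simp [hpi]
  · intro j _ hj
    have : -(2 * (j : ℤ)) ≠ 0 := by omega
    simp [this]
  · intro h
    simp at h

/-- The main lemma. -/
lemma main_lemma {m : ℕ} {a₀ b₀ : ℝ} (hb₀ : 0 < b₀) (h1 : 0 < yy m a₀ b₀ 1)
    (h2 : 0 < yy m a₀ b₀ (-1)) : False := by
  -- openness in `a`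
  have hev : ∀ᶠ a in 𝓝 a₀, 0 < yy m a b₀ 1 ∧ 0 < yy m a b₀ (-1) := by
    have e1 := (yy_continuous_a m b₀ 1).continuousAt.eventually (lt_mem_nhds h1)
    have e2 := (yy_continuous_a m b₀ (-1)).continuousAt.eventually (lt_mem_nhds h2)
    exact e1.and e2
  obtain ⟨η, hη, hball⟩ := Metric.eventually_nhds_iff_ball.mp hev
  have hG0 : ∀ n : ℕ, ∀ a ∈ Metric.ball a₀ η, GG m n a = 0 := by
    intro n
    induction n with
    | zero =>
      intro a ha
      obtain ⟨p1, p2⟩ := hball a ha
      have hp := pos_down p1 p2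
      have q1 := small_b (m := m) (a := a) (s := 1) (Or.inl rfl) hb₀ (fun b hb hb' => (hp b hb hb').1)
      have q2 := small_b (m := m) (a := a) (s := -1) (Or.inr rfl) hb₀
        (fun b hb hb' => (hp b hb hb').2)
      have q3 : ∫ τ in (0 : ℝ)..π, Real.cos (theta m a τ) = 0 := by linarith
      rw [GG_zero_eq, q3]
      simp
    | succ n ih =>
      intro a ha
      have hd := GG_hasDerivAt m n a
      have hz : GG m n =ᶠ[𝓝 a] fun _ => 0 := by
        filter_upwards [Metric.isOpen_ball.mem_nhds ha] with x hx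
        exact ih x hx
      have hd2 : HasDerivAt (GG m n) 0 a := (hasDerivAt_const a (0 : ℂ)).congr_of_eventuallyEq hz
      have := hd.unique hd2
      have h3 : Complex.I * GG m (n + 1) a = 0 := by linear_combination -this
      exact (mul_eq_zero.mp h3).resolve_left Complex.I_ne_zero
  have hG : ∀ n, GG m n a₀ = 0 := fun n => hG0 n a₀ (Metric.mem_ball_self hη)
  -- sum the series
  have huc := uu_continuous m a₀
  have key := intervalIntegral.hasSum_integral_of_dominated_convergence (μ := volume)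
    (a := -π) (b := π)
    (F := fun (n : ℕ) τ => (Complex.I * a₀) ^ n / (n.factorial : ℂ) *
      (((Real.sin τ ^ (m + n) : ℝ) : ℂ) * uu m a₀ τ))
    (f := fun τ => ((Real.sin τ ^ m : ℝ) : ℂ) * ek (-m) τ) (fun n _ => |a₀| ^ n / n.factorial)
    (fun n => by
      apply Continuous.aestronglyMeasurable
      fun_prop)
    (fun n => by
      filter_upwards with τ _
      rw [norm_mul, norm_mul, norm_uu, mul_one, norm_div, norm_pow, norm_mul, Complex.norm_I,
        one_mul, Complex.norm_real, Complex.norm_real, Real.norm_eq_abs, norm_pow,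
        Real.norm_eq_abs, Complex.norm_natCast]
      have := pow_le_one₀ (n := m + n) (abs_nonneg _) (Real.abs_sin_le_one τ)
      exact mul_le_of_le_one_right (by positivity) this)
    (by
      filter_upwards with τ _
      exact Real.summable_pow_div_factorial |a₀|)
    (by simp)
    (by
      filter_upwards with τ _
      have h := (NormedSpace.expSeries_div_hasSum_exp (Complex.I * a₀ * Real.sin τ)).mul_left
        (((Real.sin τ ^ m : ℝ) : ℂ) * uu m a₀ τ)
      rw [← Complex.exp_eq_exp_ℂ] at h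
      have e1 : ((Real.sin τ ^ m : ℝ) : ℂ) * uu m a₀ τ * Complex.exp (Complex.I * a₀ * Real.sin τ) =
          ((Real.sin τ ^ m : ℝ) : ℂ) * ek (-m) τ := by
        rw [mul_assoc]
        congr 1
        unfold uu ek theta
        rw [← Complex.exp_add]
        congr 1
        push_cast
        ring
      rw [e1] at h
      refine h.congr_fun ?_ |> fun h => h
      intro n
      rw [mul_pow, pow_add]
      push_cast
      ring)
  have hz : ∀ n : ℕ, ∫ τ in (-π)..π, (Complex.I * a₀) ^ n / (n.factorial : ℂ) *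
      (((Real.sin τ ^ (m + n) : ℝ) : ℂ) * uu m a₀ τ) = 0 := by
    intro n
    rw [intervalIntegral.integral_const_mul]
    have := hG (m + n)
    unfold GG at this
    rw [this, mul_zero]
  simp only [hz] at key
  exact integral_sin_pow_ek m (key.unique hasSum_zero)

end Pool.Agent.Lib52.Josephson
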