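import Mathlib
import Pool.Agent.Lib52.Jos8

set_option autoImplicit false

namespace Pool.Agent.Lib52.Josephson

/-- The growth of the solutions for `B ≤ m ω`. -/
theorem growth {ω B A : ℝ} (hω : 0 < ω) (m : ℕ) (hB : B ≤ (m : ℝ) * ω) {ψ : ℝ → ℝ}
    (hψd : ∀ τ, HasDerivAt ψ ((-Real.sin (ψ τ) + B + A * Real.cos τ) * (1 / ω)) τ) :
    ∃ D : ℝ, ∀ n : ℕ, ψ (-Real.pi + 2 * Real.pi * n) ≤ D + 2 * Real.pi * (m * n) := by
  have hsub : ∀ τ, (-Real.sin (ψ τ) + B + A * Real.cos τ) * (1 / ω) ≤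
      Lib52.Josephson.rhs (m : ℝ) (A / ω) (1 / ω) τ (ψ τ) := by
    intro τ
    unfold Lib52.Josephson.rhs
    have h1 : B * (1 / ω) ≤ m := by
      rw [mul_one_div, div_le_iff₀ hω]
      exact hB
    have h2 : (-Real.sin (ψ τ) + B + A * Real.cos τ) * (1 / ω) =
        B * (1 / ω) + A / ω * Real.cos τ - 1 / ω * Real.sin (ψ τ) := by ring
    rw [h2]
    linarith
  have hbpos : 0 < 1 / ω := by positivity
  -- a symmetric orbit with nonpositive displacement
  have hex : ∃ s : ℝ, (s = 1 ∨ s = -1) ∧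
      Lib52.Josephson.yy (m : ℝ) (A / ω) (1 / ω) s ≤ 0 := by
    by_contra hno
    push Not at hno
    exact Lib52.Josephson.main_lemma hbpos (hno 1 (Or.inl rfl)) (hno (-1) (Or.inr rfl))
  obtain ⟨s, hs, hys⟩ := hex
  set Ψ := Lib52.Josephson.orb (m : ℝ) (A / ω) (1 / ω) s with hΨ
  have hΨsol : Lib52.Josephson.IsSol (m : ℝ) (A / ω) (1 / ω) Ψ :=
    Lib52.Josephson.orb_isSol _ _ _ _
  have hΨstep : Ψ Real.pi ≤ Ψ (-Real.pi) + 2 * Real.pi * m := by
    have h1 := Lib52.Josephson.orb_neg (m := (m : ℝ)) (a := A / ω) (b := 1 / ω) hs Real.pi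
    unfold Lib52.Josephson.yy at hys
    rw [← hΨ] at h1 hys
    rw [h1]
    linarith
  -- initial comparison
  set N : ℤ := ⌈(ψ (-Real.pi) - Ψ (-Real.pi)) / (2 * Real.pi)⌉ with hN
  have hNle : ψ (-Real.pi) ≤ Ψ (-Real.pi) + 2 * Real.pi * N := by
    have h1 := Int.le_ceil ((ψ (-Real.pi) - Ψ (-Real.pi)) / (2 * Real.pi))
    rw [← hN, div_le_iff₀ (by have := Real.pi_pos; positivity)] at h1
    linarith
  have hind : ∀ n : ℕ, ψ (-Real.pi + 2 * Real.pi * n) ≤
      Ψ (-Real.pi) + 2 * Real.pi * (m * n) + 2 * Real.pi * N := by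
    intro n
    induction n with
    | zero => simpa using hNle
    | succ n ih =>
      have hsol : Lib52.Josephson.IsSol (m : ℝ) (A / ω) (1 / ω)
          (fun τ => Ψ (τ + ((-(n : ℤ) : ℤ) : ℝ) * (2 * Real.pi)) +
            (((m : ℤ) * (n : ℤ) + N : ℤ) : ℝ) * (2 * Real.pi)) :=
        (hΨsol.shift (-(n : ℤ))).add_two_pi ((m : ℤ) * (n : ℤ) + N)
      have hcmp := Lib52.Josephson.comparison (t₀ := -Real.pi + 2 * Real.pi * n)
        (t₁ := Real.pi + 2 * Real.pi * n) hbpos.le (by linarith [Real.pi_pos]) hψd hsub hsol (by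
          have e1 : -Real.pi + 2 * Real.pi * n + ((-(n : ℤ) : ℤ) : ℝ) * (2 * Real.pi) =
              -Real.pi := by push_cast; ring
          rw [e1]
          push_cast
          linarith)
      have e2 : Real.pi + 2 * Real.pi * n + ((-(n : ℤ) : ℤ) : ℝ) * (2 * Real.pi) =
          Real.pi := by push_cast; ring
      rw [e2] at hcmp
      push_cast at hcmp
      have e3 : -Real.pi + 2 * Real.pi * ((n + 1 : ℕ) : ℝ) = Real.pi + 2 * Real.pi * n := by
        push_cast; ring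
      rw [e3]
      push_cast
      linarith
  refine ⟨Ψ (-Real.pi) + 2 * Real.pi * N, fun n => ?_⟩
  have := hind n
  linarith

end Pool.Agent.Lib52.Josephson
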